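import Pool.Agent.P.MP_d483fb_an.Z.ST.Defs

/-! Calculus of power decay and subpolynomial growth. -/

namespace Pool.Agent.P.MP_d483fb_an.Z.ST

open Filter Topology

variable {F G : ℝ → ℝ}

lemma Sm.out (h : Sm F) : ∃ κ : ℝ, 0 < κ ∧ ∃ C, 0 ≤ C ∧ ∀ᶠ q in atTop, F q ≤ C * q ^ (-κ) := by
  obtain ⟨κ, hκ, C, h⟩ := h
  refine ⟨κ, hκ, max C 0, le_max_right _ _, ?_⟩
  filter_upwards [h, eventually_gt_atTop 0] with q h1 h2
  exact h1.trans (by gcongr; exact le_max_left _ _)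

lemma Sb.out (h : Sb F) {ε : ℝ} (hε : 0 < ε) : ∃ C, 0 ≤ C ∧ ∀ᶠ q in atTop, F q ≤ C * q ^ ε := by
  obtain ⟨C, h⟩ := h ε hε
  refine ⟨max C 0, le_max_right _ _, ?_⟩
  filter_upwards [h, eventually_gt_atTop 0] with q h1 h2
  exact h1.trans (by gcongr; exact le_max_left _ _)

lemma Sm.mono (h : Sm G) (hle : ∀ᶠ q in atTop, F q ≤ G q) : Sm F := by
  obtain ⟨κ, hκ, C, h⟩ := h
  exact ⟨κ, hκ, C, by filter_upwards [h, hle] with q h1 h2 using h2.trans h1⟩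

lemma Sm.add (hF : Sm F) (hG : Sm G) : Sm fun q => F q + G q := by
  obtain ⟨κ, hκ, C, hC, h⟩ := hF.out
  obtain ⟨κ', hκ', C', hC', h'⟩ := hG.out
  refine ⟨min κ κ', lt_min hκ hκ', C + C', ?_⟩
  filter_upwards [h, h', eventually_ge_atTop 1] with q h1 h2 h3
  have e1 : q ^ (-κ) ≤ q ^ (-min κ κ') :=
    Real.rpow_le_rpow_of_exponent_le h3 (neg_le_neg (min_le_left _ _))
  have e2 : q ^ (-κ') ≤ q ^ (-min κ κ') :=
    Real.rpow_le_rpow_of_exponent_le h3 (neg_le_neg (min_le_right _ _))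
  calc _ ≤ C * q ^ (-min κ κ') + C' * q ^ (-min κ κ') :=
        add_le_add (h1.trans (by gcongr)) (h2.trans (by gcongr))
    _ = _ := by ring

lemma Sb.mul_sm (hF : Sb F) (h0 : ∀ q, 0 ≤ F q) (hG : Sm G) : Sm fun q => F q * G q := by
  obtain ⟨κ, hκ, C, hC, h⟩ := hG.out
  obtain ⟨C', hC', h'⟩ := hF.out (half_pos hκ)
  refine ⟨κ / 2, half_pos hκ, C' * C, ?_⟩
  filter_upwards [h, h', eventually_gt_atTop 0] with q h1 h2 h3
  calc _ ≤ F q * (C * q ^ (-κ)) := mul_le_mul_of_nonneg_left h1 (h0 q)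
    _ ≤ C' * q ^ (κ / 2) * (C * q ^ (-κ)) := by gcongr
    _ = C' * C * (q ^ (κ / 2) * q ^ (-κ)) := by ring
    _ = _ := by rw [← Real.rpow_add h3]; congr 2; ring

lemma Sb.mul (hF : Sb F) (h0 : ∀ q, 0 ≤ F q) (hG : Sb G) : Sb fun q => F q * G q := by
  intro ε hε
  obtain ⟨C, hC, h⟩ := hG.out (half_pos hε)
  obtain ⟨C', hC', h'⟩ := hF.out (half_pos hε)
  refine ⟨C' * C, ?_⟩
  filter_upwards [h, h', eventually_gt_atTop 0] with q h1 h2 h3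
  calc _ ≤ F q * (C * q ^ (ε / 2)) := mul_le_mul_of_nonneg_left h1 (h0 q)
    _ ≤ C' * q ^ (ε / 2) * (C * q ^ (ε / 2)) := by gcongr
    _ = C' * C * (q ^ (ε / 2) * q ^ (ε / 2)) := by ring
    _ = _ := by rw [← Real.rpow_add h3, add_halves]

lemma Sb.add (hF : Sb F) (hG : Sb G) : Sb fun q => F q + G q := by
  intro ε hε
  obtain ⟨C, h⟩ := hF ε hε
  obtain ⟨C', h'⟩ := hG ε hε
  exact ⟨C + C', by filter_upwards [h, h'] with q h1 h2 using by linarith⟩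

lemma sb_const (c : ℝ) : Sb fun _ => c := by
  intro ε hε
  refine ⟨|c|, ?_⟩
  filter_upwards [eventually_ge_atTop 1] with q h
  have := Real.one_le_rpow h hε.le
  nlinarith [le_abs_self c, abs_nonneg c]

lemma Sm.const_mul (hF : Sm F) {c : ℝ} (hc : 0 ≤ c) : Sm fun q => c * F q :=
  (sb_const c).mul_sm (fun _ => hc) hF

lemma sm_rpow {κ : ℝ} (hκ : 0 < κ) : Sm fun q => q ^ (-κ) :=
  ⟨κ, hκ, 1, Eventually.of_forall fun q => by rw [one_mul]⟩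

lemma Sm.comp_rpow (hF : Sm F) {r : ℝ} (hr : 0 < r) : Sm fun q => F (q ^ r) := by
  obtain ⟨κ, hκ, C, h⟩ := hF
  refine ⟨r * κ, mul_pos hr hκ, C, ?_⟩
  filter_upwards [(tendsto_rpow_atTop hr).eventually h, eventually_gt_atTop 0] with q h1 h2
  rwa [← Real.rpow_mul h2.le, mul_neg] at h1

lemma Sm.root (hF : Sm F) {m : ℕ} (hm : m ≠ 0) {P : ℝ → ℝ → Prop}
    (h : ∀ᶠ q in atTop, P (q ^ m) (F q)) : ∃ F', Sm F' ∧ ∀ᶠ R in atTop, P R (F' R) := by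
  have hr : (0 : ℝ) < (m : ℝ)⁻¹ := inv_pos.mpr (by exact_mod_cast Nat.pos_of_ne_zero hm)
  refine ⟨_, hF.comp_rpow hr, ?_⟩
  filter_upwards [(tendsto_rpow_atTop hr).eventually h, eventually_gt_atTop 0] with q h1 h2
  rwa [Real.rpow_inv_natCast_pow h2.le hm] at h1

lemma Sm.le_zero (hF : Sm F) {x : ℝ} (h : ∀ᶠ q in atTop, x ≤ F q) : x ≤ 0 := by
  obtain ⟨κ, hκ, C, h'⟩ := hF
  have t := (tendsto_rpow_neg_atTop hκ).const_mul C
  rw [mul_zero] at t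
  exact ge_of_tendsto t (by filter_upwards [h, h'] with q h1 h2 using h1.trans h2)

lemma one_add_pow_le {q : ℝ} (hq : 2 ≤ q) (m : ℕ) : 1 + q ^ m ≤ q ^ (m + 1) := by
  have : 1 ≤ q ^ m := one_le_pow₀ (by linarith)
  rw [pow_succ]
  nlinarith

lemma tame_bound {V : Type*} [NormedAddCommGroup V] {f : V → ℝ}
    (h : ∀ ε : ℝ, 0 < ε → ∃ C, ∀ v, f v ≤ C * (1 + ‖v‖) ^ ε) (m : ℕ) :
    ∃ Ω, Sb Ω ∧ (∀ q, 0 ≤ Ω q) ∧ ∀ q v, ‖v‖ ≤ q ^ m → f v ≤ Ω q := by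
  have hb : ∀ ε : ℝ, 0 < ε → ∃ C, 0 ≤ C ∧ ∀ (q : ℝ) v, ‖v‖ ≤ q ^ m →
      f v ≤ C * (1 + q ^ m) ^ ε := by
    intro ε hε
    obtain ⟨C, hC⟩ := h ε hε
    refine ⟨max C 0, le_max_right _ _, fun q v hv => (hC v).trans ?_⟩
    gcongr
    exact le_max_left _ _
  refine ⟨fun q => max 0 (sSup (f '' {v | ‖v‖ ≤ q ^ m})), fun ε hε => ?_,
    fun q => le_max_left _ _, fun q v hv => ?_⟩
  · have hm : (0 : ℝ) < (m + 1 : ℕ) := by positivity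
    obtain ⟨C, hC0, hC⟩ := hb (ε / (m + 1 : ℕ)) (by positivity)
    refine ⟨C, ?_⟩
    filter_upwards [eventually_ge_atTop 2] with q hq
    have hq0 : 0 ≤ q := by linarith
    refine max_le (by positivity) (Real.sSup_le ?_ (by positivity))
    rintro _ ⟨v, hv, rfl⟩
    refine (hC q v hv).trans ?_
    calc _ ≤ C * (q ^ (m + 1)) ^ (ε / (m + 1 : ℕ)) := by gcongr; exact one_add_pow_le hq m
      _ = _ := by
        rw [← Real.rpow_natCast, ← Real.rpow_mul hq0, mul_div_cancel₀ _ hm.ne']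
  · obtain ⟨C, -, hC⟩ := hb 1 one_pos
    exact le_max_of_le_right (le_csSup ⟨_, by rintro _ ⟨w, hw, rfl⟩; exact hC q w hw⟩ ⟨v, hv, rfl⟩)

lemma poly_bound {V : Type*} [NormedAddCommGroup V] {f : V → ℝ}
    (h : ∃ (C : ℝ) (D : ℕ), ∀ v, f v ≤ C * (1 + ‖v‖) ^ D) (m : ℕ) :
    ∃ k : ℕ, ∀ᶠ q : ℝ in atTop, ∀ v, ‖v‖ ≤ q ^ m → f v ≤ q ^ k := by
  obtain ⟨C, D, h⟩ := h
  refine ⟨1 + (m + 1) * D, ?_⟩
  filter_upwards [eventually_ge_atTop 2, eventually_ge_atTop C] with q hq hC v hv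
  have := one_add_pow_le hq m
  refine (h v).trans ?_
  rw [pow_add, pow_one, pow_mul]
  gcongr
  linarith

lemma exists_lim {ι H : Type*} [NormedAddCommGroup H] [CompleteSpace H] (x : ι → ℝ → H)
    (S : Set ι) (hF : Sm F)
    (h : ∀ᶠ q in atTop, ∀ i ∈ S, ∀ q', q ≤ q' → q' ≤ 2 * q → ‖x i q - x i q'‖ ≤ F q + F q') :
    ∃ (l : ι → H) (F' : ℝ → ℝ), Sm F' ∧ ∀ᶠ q in atTop, ∀ i ∈ S, ‖x i q - l i‖ ≤ F' q := by
  obtain ⟨κ, hκ, C, hC, h'⟩ := hF.out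
  obtain ⟨q0, hq0⟩ := eventually_atTop.mp (h.and (h'.and (eventually_ge_atTop 1)))
  have h1 : 1 ≤ q0 := (hq0 q0 le_rfl).2.2
  have hb : ∀ q, q0 ≤ q → ∀ i ∈ S, ∀ q', q ≤ q' → q' ≤ 2 * q →
      ‖x i q - x i q'‖ ≤ 2 * C * q ^ (-κ) := by
    intro q hq i hi q' a b
    have e : q' ^ (-κ) ≤ q ^ (-κ) :=
      Real.rpow_le_rpow_of_nonpos (by linarith) a (by linarith)
    have := (hq0 q hq).1 i hi q' a b
    have := (hq0 q hq).2.1
    have := (hq0 q' (hq.trans a)).2.1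
    nlinarith
  set r : ℝ := 2 ^ (-κ) with hr
  have r0 : 0 < r := by positivity
  have r1 : r < 1 := Real.rpow_lt_one_of_one_lt_of_neg one_lt_two (by linarith)
  have hp : ∀ n : ℕ, (2 ^ n * q0) ^ (-κ) = q0 ^ (-κ) * r ^ n := fun n => by
    rw [Real.mul_rpow (by positivity) (by linarith), mul_comm, hr, ← Real.rpow_natCast,
      ← Real.rpow_natCast, ← Real.rpow_mul zero_le_two, ← Real.rpow_mul zero_le_two, mul_comm (n : ℝ)]
  have hn : ∀ n : ℕ, q0 ≤ 2 ^ n * q0 := fun n =>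
    le_mul_of_one_le_left (by linarith) (one_le_pow₀ one_le_two)
  have hd : ∀ i ∈ S, ∀ n : ℕ, dist (x i (2 ^ n * q0)) (x i (2 ^ (n + 1) * q0)) ≤
      2 * C * q0 ^ (-κ) * r ^ n := fun i hi n => by
    rw [dist_eq_norm, mul_assoc, ← hp]
    refine hb _ (hn n) i hi _ ?_ (le_of_eq (by ring))
    rw [pow_succ]; nlinarith [hn n]
  refine ⟨fun i => limUnder atTop fun n : ℕ => x i (2 ^ n * q0),
    fun q => 2 * C * r⁻¹ * (1 + (1 - r)⁻¹) * q ^ (-κ), (sm_rpow hκ).const_mul (by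
      have : 0 < 1 - r := by linarith
      positivity), ?_⟩
  filter_upwards [eventually_ge_atTop q0] with q hq i hi
  have hc := cauchySeq_of_le_geometric r _ r1 (hd i hi)
  obtain ⟨n, n1, n2⟩ := exists_nat_pow_near ((one_le_div (by linarith)).mpr hq) one_lt_two
  rw [le_div_iff₀ (by linarith)] at n1
  rw [div_lt_iff₀ (by linarith)] at n2
  have d1 := dist_le_of_le_geometric_of_tendsto r _ r1 (hd i hi) hc.tendsto_limUnder n
  have d2 := hb _ (hn n) i hi q n1 (by rw [pow_succ] at n2; linarith)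
  have d3 : q0 ^ (-κ) * r ^ (n + 1) ≤ q ^ (-κ) := by
    rw [← hp]
    exact Real.rpow_le_rpow_of_nonpos (by linarith) n2.le (by linarith)
  have d4 : q0 ^ (-κ) * r ^ n ≤ r⁻¹ * q ^ (-κ) := by
    rw [le_inv_mul_iff₀ r0]
    calc _ = q0 ^ (-κ) * r ^ (n + 1) := by ring
      _ ≤ _ := d3
  rw [hp, norm_sub_rev] at d2
  rw [dist_eq_norm] at d1
  have r2 : 0 < 1 - r := by linarith
  calc _ ≤ _ := norm_sub_le_norm_sub_add_norm_sub _ (x i (2 ^ n * q0)) _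
    _ ≤ 2 * C * (q0 ^ (-κ) * r ^ n) + 2 * C * q0 ^ (-κ) * r ^ n / (1 - r) := add_le_add d2 d1
    _ = 2 * C * (q0 ^ (-κ) * r ^ n) * (1 + (1 - r)⁻¹) := by rw [div_eq_mul_inv]; ring
    _ ≤ 2 * C * (r⁻¹ * q ^ (-κ)) * (1 + (1 - r)⁻¹) := by gcongr
    _ = _ := by ring

end Pool.Agent.P.MP_d483fb_an.Z.ST
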