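import Pool.Agent.P.MP_d483fb_an.Z.ST.Moves
import Pool.Agent.P.MP_d483fb_an.Z.ST.Asy

/-! Convergence of the averages along the longest root group, and invariance of the limit. -/

namespace Pool.Agent.P.MP_d483fb_an.Z.ST

open Filter Topology Set

variable {G : Type*} [Group G] [TopologicalSpace G] {sz dd : G → ℝ}

section
variable {H : Type*} [NormedAddCommGroup H] [NormedSpace ℝ H]

/-- Subexponential growth on the subgroups which occur in the data only. -/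
structure Tame (π : G →* (H →L[ℝ] H)) (D : Data sz dd) : Prop where
  cont : ∀ ξ, Continuous fun g => π g ξ
  t1 : ∀ ε : ℝ, 0 < ε → ∃ C, ∀ v, ‖π (D.e1 v)‖ ≤ C * (1 + ‖v‖) ^ ε
  t2 : ∀ ε : ℝ, 0 < ε → ∃ C, ∀ v, ‖π (D.e2 v)‖ ≤ C * (1 + ‖v‖) ^ ε
  ta : ∀ ε : ℝ, 0 < ε → ∃ C, ∀ n : ℕ, ‖π (D.a ^ n)‖ ≤ C * Real.exp (ε * n) ∧
    ‖π (D.a ^ n)⁻¹‖ ≤ C * Real.exp (ε * n)
  loc : ∃ C, ∀ g, dd g ≤ 1 → ‖π g‖ ≤ C ∧ ‖π g⁻¹‖ ≤ C

variable {π : G →* (H →L[ℝ] H)}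

/-- The representation of a vector group induced by a homomorphism. -/
def repOf (hc : ∀ ξ, Continuous fun g => π g ξ) {V : Type*} [NormedAddCommGroup V] {e : V → G}
    (he : Unip sz e) : Rep V H where
  τ v := π (e v)
  add u v := by rw [he.add, map_mul]
  zero := by
    have h := he.add 0 0
    rw [add_zero, left_eq_mul] at h
    rw [h, map_one]
  cont ξ := (hc ξ).comp he.cont

/-- The average over the longest root group. -/
noncomputable def Tame.av [CompleteSpace H] {D : Data sz dd} (hT : Tame π D) (p : ℝ) :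
    H →L[ℝ] H := (repOf hT.cont D.u1).av ![1, 0, 0] p

omit [TopologicalSpace G] in
lemma lip_hol {w : ℝ → G} (hw : LipAt dd w) {S : Set H} (hS : Hol dd π S) :
    ∃ F, Sm F ∧ ∀ᶠ q in atTop, ∀ s, |s| ≤ 2 / q → dd (w s) ≤ 1 ∧
      ∀ ξ ∈ S, ‖π (w s) ξ - ξ‖ ≤ F q := by
  obtain ⟨C, hC⟩ := hw
  obtain ⟨F, hF, h⟩ := hS.hol
  refine hF.root (m := 2) two_ne_zero (P := fun q y => ∀ s, |s| ≤ 2 / q → dd (w s) ≤ 1 ∧
    ∀ ξ ∈ S, ‖π (w s) ξ - ξ‖ ≤ y) ?_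
  filter_upwards [h, eventually_ge_atTop 2, eventually_ge_atTop (2 * |C|)] with q h1 h2 h3 s hs
  have q0 : 0 < q := by linarith
  have hs1 : |s| ≤ 1 := hs.trans (by rw [div_le_one (by positivity)]; nlinarith)
  have : dd (w s) ≤ q⁻¹ := by
    calc _ ≤ C * |s| := hC s hs1
      _ ≤ |C| * (2 / q ^ 2) := by gcongr; exact le_abs_self C
      _ = 2 * |C| / q ^ 2 := by ring
      _ ≤ q / q ^ 2 := by gcongr
      _ = _ := by field_simp
  exact ⟨this.trans (inv_le_one_of_one_le₀ (by linarith)), fun ξ hξ => h1 ξ hξ _ this⟩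

lemma Rep.norm_map_av_le [CompleteSpace H] {V : Type*} [NormedAddCommGroup V] [NormedSpace ℝ V]
    (T : Rep V H) (S : H →L[ℝ] H) {v : V} {p c : ℝ} (hp : 0 < p) {ξ : H}
    (h : ∀ t ∈ Icc 0 p, ‖S (T.τ (t • v) ξ)‖ ≤ c) : ‖S (T.av v p ξ)‖ ≤ c := by
  have := intervalIntegral.norm_integral_le_of_norm_le_const (a := 0) (b := p) (C := c)
    (f := fun t => S (T.τ (t • v) ξ)) fun t ht => h t (by
      rw [uIoc_of_le hp.le] at ht; exact Ioc_subset_Icc_self ht)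
  rw [T.map_av, norm_smul, Real.norm_eq_abs, abs_of_pos (inv_pos.mpr hp)]
  rw [sub_zero, abs_of_pos hp] at this
  calc _ ≤ p⁻¹ * (c * p) := by gcongr
    _ = _ := by field_simp

omit [TopologicalSpace G] in
/-- Mautner phenomenon for Hölder vectors. -/
lemma mautner {b g : G} {ζ : H} (hζ : Hol dd π {ζ}) (hb : π b ζ = ζ)
    (hn : ∀ ε : ℝ, 0 < ε → ∃ C, ∀ n : ℕ, ‖π (b ^ n)⁻¹‖ ≤ C * Real.exp (ε * n))
    (hg : Contr dd b g) : π g ζ = ζ := by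
  obtain ⟨C, β, β0, β1, hg⟩ := hg
  obtain ⟨F, hF, h⟩ := hζ.hol
  obtain ⟨κ, hκ, C1, hC1, h1⟩ := hF.out
  set γ := (1 + β) / 2 with hγ
  have γ0 : 0 < γ := by positivity
  have γ1 : γ < 1 := by linarith
  have hl : 0 < -Real.log γ := neg_pos.mpr (Real.log_neg γ0 γ1)
  obtain ⟨C2, h2⟩ := hn (κ * -Real.log γ / 2) (by positivity)
  have hbn : ∀ n : ℕ, π (b ^ n) ζ = ζ := fun n => by
    induction n with
    | zero => simp
    | succ n ih => rw [pow_succ, map_mul, mul_apply_eq_comp, hb, ih]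
  have hbn' : ∀ n : ℕ, π (b ^ n)⁻¹ ζ = ζ := fun n => by
    conv_lhs => rw [← hbn n, ← mul_apply_eq_comp, ← map_mul, inv_mul_cancel, map_one]
    rfl
  have t1 : Tendsto (fun n : ℕ => (γ⁻¹) ^ n) atTop atTop :=
    tendsto_pow_atTop_atTop_of_one_lt (one_lt_inv₀ γ0 |>.mpr γ1)
  have t2 : Tendsto (fun n : ℕ => C * (β / γ) ^ n) atTop (𝓝 (C * 0)) :=
    (tendsto_pow_atTop_nhds_zero_of_lt_one (by positivity)
      (by rw [div_lt_one γ0]; linarith)).const_mul C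
  have t3 : Tendsto (fun n : ℕ => C2 * C1 * Real.exp (κ * Real.log γ / 2) ^ n) atTop
      (𝓝 (C2 * C1 * 0)) :=
    (tendsto_pow_atTop_nhds_zero_of_lt_one (by positivity)
      (Real.exp_lt_one_iff.mpr (by nlinarith))).const_mul _
  rw [mul_zero] at t2 t3
  rw [← sub_eq_zero, ← norm_le_zero_iff]
  refine ge_of_tendsto t3 ?_
  filter_upwards [t1.eventually h, t1.eventually h1, t2.eventually (ge_mem_nhds one_pos)]
    with n e1 e2 e3
  have d : dd (b ^ n * g * (b ^ n)⁻¹) ≤ (γ⁻¹ ^ n)⁻¹ := by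
    rw [inv_pow, inv_inv]
    refine (hg n).trans ?_
    calc _ = C * (β / γ) ^ n * γ ^ n := by rw [div_pow]; field_simp
      _ ≤ 1 * γ ^ n := by gcongr
      _ = _ := one_mul _
  have e4 := (e1 ζ rfl _ d).trans e2
  have e : π g ζ - ζ = π (b ^ n)⁻¹ (π (b ^ n * g * (b ^ n)⁻¹) ζ - ζ) := by
    rw [map_sub, hbn', ← mul_apply_eq_comp, ← map_mul, ← mul_assoc, ← mul_assoc, inv_mul_cancel,
      one_mul, map_mul, mul_apply_eq_comp, hbn']
  have c2 : 0 ≤ C2 * Real.exp (κ * -Real.log γ / 2 * n) := (norm_nonneg _).trans (h2 n)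
  rw [e]
  refine ((π (b ^ n)⁻¹).le_of_opNorm_le (h2 n) _).trans
    ((mul_le_mul_of_nonneg_left e4 c2).trans (le_of_eq ?_))
  rw [Real.rpow_def_of_pos (by positivity), Real.log_pow, Real.log_inv, ← Real.exp_nat_mul]
  calc _ = C2 * C1 * (Real.exp (κ * -Real.log γ / 2 * n) *
        Real.exp (n * -Real.log γ * -κ)) := by ring
    _ = _ := by rw [← Real.exp_add]; congr 2; ring

lemma Tame.sl2 {D : Data sz dd} (hT : Tame π D) {ζ : H} (hζ : Hol dd π {ζ})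
    (hz : ∀ c : ℝ, π (D.e1 ![c, 0, 0]) ζ = ζ) : π D.a ζ = ζ := by
  obtain ⟨F, hF, h⟩ := lip_hol D.l3 hζ
  obtain ⟨Ω, hΩ, Ω0, hb⟩ := tame_bound hT.t1 1
  rw [← sub_eq_zero, ← norm_le_zero_iff]
  refine ((hΩ.mul_sm Ω0 hF).add (hF.const_mul (norm_nonneg (π D.a)))).le_zero ?_
  filter_upwards [h, eventually_gt_atTop 0] with q h1 q0
  have d0 : 0 < q⁻¹ := inv_pos.mpr q0
  have b1 := (h1 q⁻¹ (by rw [abs_of_pos d0, div_eq_mul_inv]; linarith)).2 ζ rfl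
  have b2 := (h1 (2 * q⁻¹) (by rw [abs_of_pos (by positivity), div_eq_mul_inv])).2 ζ rfl
  have e := congrArg (fun g => π g ζ) (D.sl q⁻¹ d0)
  simp only [map_mul, mul_apply_eq_comp, hz, inv_inv] at e
  have e2 : π D.a ζ - ζ = π (D.e1 ![q, 0, 0]) (π (D.lo q⁻¹) ζ - ζ) -
      π D.a (π (D.lo (2 * q⁻¹)) ζ - ζ) := by
    rw [map_sub, map_sub, e, hz]; abel
  rw [e2]
  refine (norm_sub_le _ _).trans (add_le_add ?_ (((π D.a).le_opNorm _).trans (by gcongr)))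
  refine ((π _).le_of_opNorm_le (hb q _ ?_) _).trans (mul_le_mul_of_nonneg_left b1 (Ω0 q))
  rw [pow_one]
  exact norm_vec_le (abs_of_pos q0).le (by simpa using q0.le) (by simpa using q0.le)

end

variable {H : Type*} [NormedAddCommGroup H] [InnerProductSpace ℝ H] [CompleteSpace H]
  {π : G →* (H →L[ℝ] H)} {D : Data sz dd}

lemma kappa {q : ℝ} (hq : 0 < q) : 576 / q ≤ (3 * q ^ (-(1 / 6 : ℝ))) ^ 6 := by
  rw [mul_pow, ← Real.rpow_natCast (q ^ _), ← Real.rpow_mul hq.le]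
  norm_num
  rw [Real.rpow_neg_one, div_eq_mul_inv]
  gcongr
  norm_num

lemma step1 (hc : ∀ ξ, Continuous fun g => π g ξ) {e : V3 → G} (he : Unip sz e) {w : ℝ → G}
    (hw : LipAt dd w) (hcw : ∀ s v, w s * e v = e (sh s v) * w s)
    (ht : ∀ ε : ℝ, 0 < ε → ∃ C, ∀ v, ‖π (e v)‖ ≤ C * (1 + ‖v‖) ^ ε)
    (hl : ∃ C, ∀ g, dd g ≤ 1 → ‖π g‖ ≤ C ∧ ‖π g⁻¹‖ ≤ C) {S : Set H} (hS : Hol dd π S) :
    ∃ F, Sm F ∧ ∀ᶠ q in atTop, ∀ ξ ∈ S, ∀ a, |a| ≤ q ^ 12 →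
      ‖(repOf hc he).M ![1, 0, 0] ![0, a, 0] (q ^ 16) ξ‖ ≤ F q := by
  obtain ⟨F, hF, h⟩ := lip_hol hw hS
  obtain ⟨Ω, hΩ, Ω0, hb⟩ := tame_bound ht 26
  obtain ⟨B, hB⟩ := hl
  obtain ⟨L, hL⟩ := hS.bdd
  have s1 : Sm fun q => |B| * (Ω q * (Ω q * (3 * |L| * (3 * q ^ (-(1 / 6 : ℝ))))) +
      Ω q * ((Ω q + 1) * F q)) :=
    ((hΩ.mul_sm Ω0 (hΩ.mul_sm Ω0 (((sm_rpow (by norm_num)).const_mul (by norm_num)).const_mul
      (by positivity)))).add (hΩ.mul_sm Ω0 ((hΩ.add (sb_const 1)).mul_sm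
        (fun q => by linarith [Ω0 q]) hF))).const_mul (abs_nonneg B)
  refine ⟨_, s1, ?_⟩
  filter_upwards [h, eventually_ge_atTop 2] with q h1 hq ξ hξ a ha
  have q0 : 0 < q := by linarith
  refine (move1 (repOf hc he) (fun s => π (w s)) (fun s => π (w s)⁻¹)
    (fun s => by rw [← map_mul, inv_mul_cancel, map_one])
    (fun s v => by
      change π (w s) * π (e v) = π (e (sh s v)) * π (w s)
      rw [← map_mul, hcw, map_mul]) hq ha (hb q)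
    (fun s hs => (hB _ (h1 s hs).1).2.trans (le_abs_self B)) (by positivity) (kappa q0)
    (fun s hs => (h1 s hs).2 ξ hξ)).trans ?_
  calc _ ≤ |B| * (3 * Ω q ^ 2 * (3 * q ^ (-(1 / 6 : ℝ))) * |L| + Ω q * (Ω q + 1) * F q) := by
        gcongr; exact (hL ξ hξ).trans (le_abs_self L)
    _ = _ := by ring

lemma Tame.step (hT : Tame π D) {S : Set H} (hS : Hol dd π S) :
    ∃ F, Sm F ∧ ∀ᶠ q in atTop, ∀ ξ ∈ S, ∀ c, |c| ≤ q ^ 17 →
      ‖π (D.e1 ![c, 0, 0]) (hT.av (q ^ 16) ξ) - hT.av (q ^ 16) ξ‖ ≤ F q := by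
  obtain ⟨F1, hF1, h1⟩ := step1 hT.cont D.u1 D.l1 D.c1 hT.t1 hT.loc hS
  obtain ⟨F2, hF2, h2⟩ := step1 hT.cont D.u2 D.l2 D.c2 hT.t2 hT.loc hS
  obtain ⟨Ω1, hΩ1, Ω10, hb1⟩ := tame_bound hT.t1 26
  obtain ⟨Ω2, hΩ2, Ω20, hb2⟩ := tame_bound hT.t2 26
  obtain ⟨L, hL⟩ := hS.bdd
  have hΩ := hΩ1.add hΩ2
  have Ω0 : ∀ q, 0 ≤ Ω1 q + Ω2 q := fun q => add_nonneg (Ω10 q) (Ω20 q)
  have hΩ' := hΩ.add (sb_const 1)
  have Ω0' : ∀ q, 0 ≤ Ω1 q + Ω2 q + 1 := fun q => by linarith [Ω0 q]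
  refine ⟨_, (hΩ'.mul_sm Ω0' (hΩ'.mul_sm Ω0' (hF1.add hF2))).add (hΩ.mul_sm Ω0 (hΩ.mul_sm Ω0
    (hΩ.mul_sm Ω0 (hΩ.mul_sm Ω0 (((sm_rpow (κ := 1 / 6) (by norm_num)).const_mul
      (c := 3) (by norm_num)).const_mul (c := 3 * |L|) (by positivity)))))), ?_⟩
  filter_upwards [h1, h2, eventually_ge_atTop 2] with q e1 e2 hq ξ hξ c hc
  have q0 : 0 < q := by linarith
  have z : |(0 : ℝ)| ≤ q ^ 12 := by simp; positivity
  have f1 := (norm_nonneg _).trans (e1 ξ hξ 0 z)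
  have f2 := (norm_nonneg _).trans (e2 ξ hξ 0 z)
  refine (moves (repOf hT.cont D.u1) (repOf hT.cont D.u2) (fun t => congrArg π (D.same t))
    (fun s t r => by
      change π _ * π _ = π _ * π _
      rw [← map_mul, D.heis, map_mul]) (om := Ω1 q + Ω2 q) (δ := F1 q + F2 q) hq hc
    (fun x hx => (hb1 q x hx).trans (by linarith [Ω20 q]))
    (fun x hx => (hb2 q x hx).trans (by linarith [Ω10 q])) (by positivity) (kappa q0)
    (fun a ha => (e1 ξ hξ a ha).trans (by linarith))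
    (fun a ha => (e2 ξ hξ a ha).trans (by linarith))).trans ?_
  have := Ω0 q
  calc _ ≤ (Ω1 q + Ω2 q + 1) * ((Ω1 q + Ω2 q + 1) * (F1 q + F2 q)) + (Ω1 q + Ω2 q) *
      ((Ω1 q + Ω2 q) * (3 * (Ω1 q + Ω2 q) ^ 2 * (3 * q ^ (-(1 / 6 : ℝ))) * |L|)) := by
        gcongr; exact (hL ξ hξ).trans (le_abs_self L)
    _ = _ := by ring

lemma Tame.conv (hT : Tame π D) {S : Set H} (hS : Hol dd π S) :
    ∃ (P : H → H) (F : ℝ → ℝ), Sm F ∧ (∀ᶠ q in atTop, ∀ ξ ∈ S, ‖hT.av (q ^ 16) ξ - P ξ‖ ≤ F q) ∧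
      ∀ ξ ∈ S, ∀ c : ℝ, π (D.e1 ![c, 0, 0]) (P ξ) = P ξ := by
  obtain ⟨F, hF, h⟩ := hT.step hS
  obtain ⟨q0, hq0⟩ := eventually_atTop.mp h
  obtain ⟨P, F', hF', h'⟩ := exists_lim (fun ξ q => hT.av (q ^ 16) ξ) S hF (by
    filter_upwards [eventually_ge_atTop q0, eventually_ge_atTop (2 ^ 16)] with q h1 h2 ξ hξ q' a b
    have q1 : 1 ≤ q := by linarith
    have p1 : q' ^ 16 ≤ q ^ 17 := by
      calc _ ≤ (2 * q) ^ 16 := by gcongr; linarith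
        _ = 2 ^ 16 * q ^ 16 := by ring
        _ ≤ q * q ^ 16 := by gcongr
        _ = _ := by ring
    have p2 : q ^ 16 ≤ q' ^ 17 := by
      calc _ ≤ q ^ 17 := pow_le_pow_right₀ q1 (by norm_num)
        _ ≤ _ := by gcongr
    have b1 : ‖hT.av (q' ^ 16) (hT.av (q ^ 16) ξ) - hT.av (q ^ 16) ξ‖ ≤ F q :=
      (repOf hT.cont D.u1).norm_av_sub_le (by have : 0 < q' := by linarith
                                              positivity) fun t ht => by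
        rw [smul_vec, mul_zero, mul_one]
        exact hq0 q h1 ξ hξ t (by rw [abs_of_nonneg ht.1]; linarith [ht.2])
    have b2 : ‖hT.av (q ^ 16) (hT.av (q' ^ 16) ξ) - hT.av (q' ^ 16) ξ‖ ≤ F q' :=
      (repOf hT.cont D.u1).norm_av_sub_le (by positivity) fun t ht => by
        rw [smul_vec, mul_zero, mul_one]
        exact hq0 q' (h1.trans a) ξ hξ t (by rw [abs_of_nonneg ht.1]; linarith [ht.2])
    have e : hT.av (q' ^ 16) (hT.av (q ^ 16) ξ) = hT.av (q ^ 16) (hT.av (q' ^ 16) ξ) :=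
      congrArg (· ξ) ((repOf hT.cont D.u1).commute_av_av _ _ _ _).eq
    rw [e, norm_sub_rev] at b1
    exact (norm_sub_le_norm_sub_add_norm_sub _ _ _).trans (add_le_add b1 b2))
  refine ⟨P, F', hF', h', fun ξ hξ c => ?_⟩
  rw [← sub_eq_zero, ← norm_le_zero_iff]
  refine ((hF.add hF').add (hF'.const_mul (norm_nonneg (π (D.e1 ![c, 0, 0]))))).le_zero ?_
  filter_upwards [h, h', eventually_ge_atTop 1, eventually_ge_atTop |c|] with q e1 e2 q1 q2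
  have b1 := e1 ξ hξ c (q2.trans (le_self_pow₀ q1 (by norm_num)))
  have b2 := e2 ξ hξ
  have e : π (D.e1 ![c, 0, 0]) (P ξ) - P ξ = (π (D.e1 ![c, 0, 0]) (hT.av (q ^ 16) ξ) -
      hT.av (q ^ 16) ξ) + (hT.av (q ^ 16) ξ - P ξ) -
      π (D.e1 ![c, 0, 0]) (hT.av (q ^ 16) ξ - P ξ) := by rw [map_sub]; abel
  rw [e]
  exact (norm_sub_le _ _).trans (add_le_add ((norm_add_le _ _).trans (add_le_add b1 b2))
    (((π _).le_opNorm _).trans (by gcongr)))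

lemma Tame.hol_lim (hs : Size sz dd) (hT : Tame π D) {S : Set H} (hS : Hol dd π S) {P : H → H}
    {F : ℝ → ℝ} (hF : Sm F) (h : ∀ᶠ q in atTop, ∀ ξ ∈ S, ‖hT.av (q ^ 16) ξ - P ξ‖ ≤ F q) :
    Hol dd π (P '' S) := by
  obtain ⟨L, hL⟩ := hS.bdd
  constructor
  · obtain ⟨q, hq⟩ := h.exists
    refine ⟨‖hT.av (q ^ 16)‖ * L + F q, ?_⟩
    rintro _ ⟨ξ, hξ, rfl⟩
    have h1 := norm_sub_norm_le (P ξ) (hT.av (q ^ 16) ξ)
    have h2 := ((hT.av (q ^ 16)).le_opNorm ξ).trans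
      (mul_le_mul_of_nonneg_left (hL ξ hξ) (norm_nonneg _))
    rw [norm_sub_rev] at h1
    linarith [hq ξ hξ]
  obtain ⟨F0, hF0, h0⟩ := hS.hol
  obtain ⟨Ω, hΩ, Ω0, hb⟩ := tame_bound hT.t1 16
  obtain ⟨k, hk⟩ := poly_bound D.u1.poly 16
  obtain ⟨B, hB⟩ := hT.loc
  refine ((hΩ.mul_sm Ω0 hF0).add (hF.add (hF.const_mul (abs_nonneg B)))).root (m := 2 * k + 1)
    (by omega) (P := fun q y => ∀ ξ ∈ P '' S, ∀ g, dd g ≤ q⁻¹ → ‖π g ξ - ξ‖ ≤ y) ?_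
  filter_upwards [h, h0, hk, eventually_ge_atTop 1] with q e1 e2 e3 q1
  rintro _ ⟨ξ, hξ, rfl⟩ g hg
  have q0 : 0 < q := by linarith
  have b1 : ‖(π g - 1) (hT.av (q ^ 16) ξ)‖ ≤ Ω q * F0 q := by
    refine (repOf hT.cont D.u1).norm_map_av_le _ (by positivity) fun t ht => ?_
    have hv : ‖t • (![1, 0, 0] : V3)‖ ≤ q ^ 16 := by
      rw [smul_vec, mul_zero, mul_one]
      exact norm_vec_le (by rw [abs_of_nonneg ht.1]; exact ht.2) (by simp; positivity)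
        (by simp; positivity)
    generalize t • (![1, 0, 0] : V3) = v at hv
    change ‖π g (π (D.e1 v) ξ) - π (D.e1 v) ξ‖ ≤ _
    have d : dd ((D.e1 v)⁻¹ * g * D.e1 v) ≤ q⁻¹ := by
      refine (hs.conj g _).trans ?_
      have := hs.one_le (D.e1 v)
      calc _ ≤ (q ^ k) ^ 2 * (q ^ (2 * k + 1))⁻¹ := by
            gcongr
            · exact hs.dd_nonneg g
            · exact e3 v hv
        _ = _ := by field_simp; ring
    have e : π g (π (D.e1 v) ξ) - π (D.e1 v) ξ =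
        π (D.e1 v) (π ((D.e1 v)⁻¹ * g * D.e1 v) ξ - ξ) := by
      rw [map_sub, ← mul_apply_eq_comp (π (D.e1 v)), ← map_mul, ← mul_assoc, ← mul_assoc,
        mul_inv_cancel, one_mul, map_mul, mul_apply_eq_comp]
    rw [e]
    exact ((π _).le_of_opNorm_le (hb q v hv) _).trans
      (mul_le_mul_of_nonneg_left (e2 ξ hξ _ d) (Ω0 q))
  have b2 := e1 ξ hξ
  have b3 : ‖π g‖ ≤ |B| := (hB g (hg.trans (inv_le_one_of_one_le₀ (one_le_pow₀ q1)))).1.trans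
    (le_abs_self B)
  have e : π g (P ξ) - P ξ = (π g - 1) (hT.av (q ^ 16) ξ) + ((hT.av (q ^ 16) ξ - P ξ) -
      π g (hT.av (q ^ 16) ξ - P ξ)) := by
    rw [map_sub, sub_apply, one_apply_eq_self]; abel
  rw [e]
  exact (norm_add_le _ _).trans (add_le_add b1 ((norm_sub_le _ _).trans (add_le_add b2
    (((π g).le_of_opNorm_le b3 _).trans (by gcongr)))))

omit [TopologicalSpace G] [CompleteSpace H] in
lemma Hol.mono {S S' : Set H} (hS : Hol dd π S) (h : S' ⊆ S) : Hol dd π S' := by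
  obtain ⟨⟨B, hB⟩, F, hF, h'⟩ := hS
  exact ⟨⟨B, fun ξ hξ => hB ξ (h hξ)⟩, F, hF, h'.mono fun q hq ξ hξ => hq ξ (h hξ)⟩

/-- One factor, under growth conditions on the data only. -/
theorem Tame.one_factor (hs : Size sz dd) (hT : Tame π D) {S : Set H} (hS : Hol dd π S) :
    ∃ P : H → H, (∃ F, Sm F ∧ ∀ᶠ p in atTop, ∀ ξ ∈ S, ‖hT.av p ξ - P ξ‖ ≤ F p) ∧
      Hol dd π (P '' S) ∧
      ∀ ξ ∈ S, ∀ g, Contr dd D.a g ∨ Contr dd D.a⁻¹ g → π g (P ξ) = P ξ := by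
  obtain ⟨P, F, hF, h, hz⟩ := hT.conv hS
  have hP := hT.hol_lim hs hS hF h
  refine ⟨P, hF.root (m := 16) (by norm_num)
    (P := fun p y => ∀ ξ ∈ S, ‖hT.av p ξ - P ξ‖ ≤ y) h, hP, fun ξ hξ g hg => ?_⟩
  have h1 : Hol dd π {P ξ} := hP.mono (singleton_subset_iff.mpr ⟨ξ, hξ, rfl⟩)
  have h2 := hT.sl2 h1 (hz ξ hξ)
  rcases hg with hg | hg
  · exact mautner h1 h2 (fun ε hε => (hT.ta ε hε).imp fun C hC n => (hC n).2) hg
  · refine mautner h1 ?_ (fun ε hε => (hT.ta ε hε).imp fun C hC n => ?_) hg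
    · conv_lhs => rw [← h2, ← mul_apply_eq_comp, ← map_mul, inv_mul_cancel, map_one]
      rfl
    · rw [inv_pow, inv_inv]; exact (hC n).1

omit [CompleteSpace H] in
lemma Grow.tame (hs : Size sz dd) (hπ : Grow sz π) (D : Data sz dd) : Tame π D := by
  have hb : ∀ ε : ℝ, 0 < ε → ∃ C, 0 ≤ C ∧ ∀ g R, sz g ≤ R → ‖π g‖ ≤ C * R ^ ε := by
    intro ε hε
    obtain ⟨C, hC⟩ := hπ.grow ε hε
    refine ⟨max C 0, le_max_right _ _, fun g R hR => (hC g).trans ?_⟩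
    have := hs.one_le g
    gcongr
    exact le_max_left _ _
  have hu : ∀ {e : V3 → G}, Unip sz e →
      ∀ ε : ℝ, 0 < ε → ∃ C, ∀ v, ‖π (e v)‖ ≤ C * (1 + ‖v‖) ^ ε := by
    intro e he ε hε
    obtain ⟨C, m, hC⟩ := he.poly
    have hm : (0 : ℝ) < (m + 1 : ℕ) := by positivity
    obtain ⟨C', C0, hC'⟩ := hb (ε / (m + 1 : ℕ)) (by positivity)
    refine ⟨C' * |C| ^ (ε / (m + 1 : ℕ)), fun v => ?_⟩
    have h1 : 1 ≤ 1 + ‖v‖ := by linarith [norm_nonneg v]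
    have h2 : sz (e v) ≤ |C| * (1 + ‖v‖) ^ (m + 1) := (hC v).trans (by
      gcongr
      · exact le_abs_self C
      · omega)
    refine (hC' _ _ h2).trans (le_of_eq ?_)
    rw [Real.mul_rpow (abs_nonneg C) (by positivity), ← Real.rpow_natCast,
      ← Real.rpow_mul (by positivity), mul_div_cancel₀ _ hm.ne', mul_assoc]
  refine ⟨hπ.cont, hu D.u1, hu D.u2, fun ε hε => ?_, ?_⟩
  · have h1 := hs.one_le D.a
    have hp : ∀ n : ℕ, sz (D.a ^ n) ≤ sz 1 * Real.exp (sz D.a * n) := fun n => by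
      induction n with
      | zero => simp
      | succ n ih =>
        rw [pow_succ]
        refine (hs.mul _ _).trans ?_
        have := Real.add_one_le_exp (sz D.a)
        have h0 := hs.one_le 1
        calc _ ≤ sz 1 * Real.exp (sz D.a * n) * Real.exp (sz D.a) := by gcongr; linarith
          _ = _ := by rw [mul_assoc, ← Real.exp_add]; push_cast; ring_nf
    obtain ⟨C, C0, hC⟩ := hb (ε / sz D.a) (by positivity)
    have e : ∀ n : ℕ, C * (sz 1 * Real.exp (sz D.a * n)) ^ (ε / sz D.a) =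
        C * sz 1 ^ (ε / sz D.a) * Real.exp (ε * n) := fun n => by
      rw [Real.mul_rpow (by linarith [hs.one_le 1]) (by positivity), ← Real.exp_mul, ← mul_assoc]
      congr 2
      field_simp
    exact ⟨_, fun n => ⟨(hC _ _ (hp n)).trans (e n).le,
      (hC _ _ (by rw [hs.inv]; exact hp n)).trans (e n).le⟩⟩
  · obtain ⟨B, hB⟩ := hs.loc
    obtain ⟨C, -, hC⟩ := hb 1 one_pos
    exact ⟨_, fun g hg => ⟨hC _ _ (hB g hg), hC _ _ (by rw [hs.inv]; exact hB g hg)⟩⟩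

/-- One factor, uniformly over a bounded set of Hölder vectors. -/
theorem one_factor (hs : Size sz dd) (hπ : Grow sz π) (D : Data sz dd) {S : Set H}
    (hS : Hol dd π S) :
    ∃ P : H → H, (∃ F, Sm F ∧ ∀ᶠ p in atTop, ∀ ξ ∈ S, ‖D.avz hπ p ξ - P ξ‖ ≤ F p) ∧
      Hol dd π (P '' S) ∧
      ∀ ξ ∈ S, ∀ g, Contr dd D.a g ∨ Contr dd D.a⁻¹ g → π g (P ξ) = P ξ :=
  (hπ.tame hs D).one_factor hs hS

end Pool.Agent.P.MP_d483fb_an.Z.ST
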