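import Pool.Agent.P.MP_d483fb_an.Z.ST.Limit

/-! Invariant vectors with a polynomial rate of approximation. -/

namespace Pool.Agent.P.MP_d483fb_an.Z.ST

open Filter Topology Set MeasureTheory

variable {G : Type*} [Group G] [TopologicalSpace G] {sz dd : G → ℝ}
  {H : Type*} [NormedAddCommGroup H] [InnerProductSpace ℝ H] [CompleteSpace H]
  {π : G →* (H →L[ℝ] H)}

/-- `ζ` is approximated at a polynomial rate by convex combinations of translates of `ξ` by
elements of `W R`. -/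
def AppW (W : ℝ → Set G) (π : G →* (H →L[ℝ] H)) (ξ ζ : H) : Prop :=
  ∃ F, Sm F ∧ ∀ᶠ R in atTop, ∃ η ∈ convexHull ℝ {x | ∃ g ∈ W R, x = π g ξ}, ‖ζ - η‖ ≤ F R

/-- The stabiliser of a vector. -/
def stab (π : G →* (H →L[ℝ] H)) (ζ : H) : Subgroup G where
  carrier := {g | π g ζ = ζ}
  mul_mem' {a b} ha hb := by
    change π (a * b) ζ = ζ
    rw [map_mul, mul_apply_eq_comp, hb, ha]
  one_mem' := by
    change π 1 ζ = ζ
    rw [map_one, one_apply_eq_self]
  inv_mem' {a} ha := by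
    change π a⁻¹ ζ = ζ
    conv_lhs => rw [← (ha : π a ζ = ζ), ← mul_apply_eq_comp, ← map_mul, inv_mul_cancel, map_one]
    rfl

lemma sm_inv : Sm fun q => q⁻¹ :=
  (sm_rpow one_pos).mono (Eventually.of_forall fun q => (Real.rpow_neg_one q).ge)

lemma Tame.appW {D : Data sz dd} (hT : Tame π D) {W : ℝ → Set G}
    (hW : ∃ k : ℕ, k ≠ 0 ∧ ∀ᶠ R : ℝ in atTop, ∀ t g, |t| ≤ R → g ∈ W R →
      D.e1 ![t, 0, 0] * g ∈ W (R ^ k))
    {ξ0 ξ ζ : H} (h0 : AppW W π ξ0 ξ) {F : ℝ → ℝ} (hF : Sm F)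
    (h : ∀ᶠ p in atTop, ‖hT.av p ξ - ζ‖ ≤ F p) : AppW W π ξ0 ζ := by
  obtain ⟨k, hk, hW⟩ := hW
  obtain ⟨F0, hF0, h0⟩ := h0
  obtain ⟨Ω, hΩ, Ω0, hb⟩ := tame_bound hT.t1 1
  refine (hF.add ((hΩ.mul_sm Ω0 hF0).add sm_inv)).root hk
    (P := fun R y => ∃ η ∈ convexHull ℝ {x | ∃ g ∈ W R, x = π g ξ0}, ‖ζ - η‖ ≤ y) ?_
  filter_upwards [h, h0, hW, eventually_gt_atTop 0] with R e1 e2 e3 R0
  obtain ⟨η, hη, e2⟩ := e2
  have hm : hT.av R η ∈ closure (convexHull ℝ {x | ∃ g ∈ W (R ^ k), x = π g ξ0}) := by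
    refine (repOf hT.cont D.u1).av_mem R0 (convex_convexHull _ _).closure isClosed_closure
      fun t ht => subset_closure ?_
    rw [smul_vec, mul_zero, mul_one]
    refine convexHull_min (t := (π (D.e1 ![t, 0, 0])) ⁻¹'
      convexHull ℝ {x | ∃ g ∈ W (R ^ k), x = π g ξ0}) ?_
      ((convex_convexHull _ _).linear_preimage (π (D.e1 ![t, 0, 0]) : H →ₗ[ℝ] H)) hη
    rintro _ ⟨g, hg, rfl⟩
    exact subset_convexHull _ _ ⟨_, e3 t g (by rw [abs_of_nonneg ht.1]; exact ht.2) hg, by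
      rw [map_mul, mul_apply_eq_comp]⟩
  obtain ⟨η', hη', e4⟩ := Metric.mem_closure_iff.mp hm R⁻¹ (inv_pos.mpr R0)
  refine ⟨η', hη', ?_⟩
  have hn : ‖hT.av R‖ ≤ Ω R := (repOf hT.cont D.u1).norm_av_le R0 fun t ht => hb R _ (by
    rw [smul_vec, mul_zero, mul_one, pow_one]
    exact norm_vec_le (by rw [abs_of_nonneg ht.1]; exact ht.2) (by simpa using R0.le)
      (by simpa using R0.le))
  have e : ζ - η' = -(hT.av R ξ - ζ) + (hT.av R (ξ - η) + (hT.av R η - η')) := by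
    rw [map_sub]; abel
  rw [dist_eq_norm] at e4
  rw [e]
  refine (norm_add_le _ _).trans (add_le_add (by rwa [norm_neg]) ((norm_add_le _ _).trans
    (add_le_add ?_ e4.le)))
  exact ((hT.av R).le_of_opNorm_le hn _).trans (mul_le_mul_of_nonneg_left e2 (Ω0 R))

lemma Tame.keep {D : Data sz dd} (hT : Tame π D) {N : Subgroup G} (hn : N.Normal) {ξ ζ : H}
    (hξ : N ≤ stab π ξ) {F : ℝ → ℝ} (hF : Sm F) (h : ∀ᶠ p in atTop, ‖hT.av p ξ - ζ‖ ≤ F p) :
    N ≤ stab π ζ := by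
  intro g hg
  change π g ζ = ζ
  rw [← sub_eq_zero, ← norm_le_zero_iff]
  refine (hF.add (hF.const_mul (norm_nonneg (π g)))).le_zero ?_
  filter_upwards [h, eventually_gt_atTop 0] with p e1 p0
  have b1 : ‖(π g - 1) (hT.av p ξ)‖ ≤ 0 := by
    refine (repOf hT.cont D.u1).norm_map_av_le _ p0 fun t _ => ?_
    generalize t • (![1, 0, 0] : V3) = v
    change ‖π g (π (D.e1 v) ξ) - π (D.e1 v) ξ‖ ≤ _
    have e : π ((D.e1 v)⁻¹ * g * D.e1 v) ξ = ξ := hξ (hn.conj_mem' g hg _)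
    conv_lhs => rw [← mul_apply_eq_comp, ← map_mul, ← mul_inv_cancel_left (D.e1 v) (g * D.e1 v),
      map_mul, mul_apply_eq_comp, ← mul_assoc, e]
    simp
  rw [norm_le_zero_iff] at b1
  have e : π g ζ - ζ = (π g - 1) (hT.av p ξ) + ((hT.av p ξ - ζ) - π g (hT.av p ξ - ζ)) := by
    rw [map_sub, sub_apply, one_apply_eq_self]; abel
  rw [e, b1, zero_add]
  exact (norm_sub_le _ _).trans (add_le_add e1 (((π g).le_opNorm _).trans (by gcongr)))

/-- All factors, under growth conditions on the data only. -/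
theorem all_factorsW (hs : Size sz dd) (hc : ∀ ξ, Continuous fun g => π g ξ) {ι : Type*}
    [Finite ι] (D : ι → Data sz dd) (hT : ∀ i, Tame π (D i)) (W : ℝ → Set G)
    (hW : ∀ i, ∃ k : ℕ, k ≠ 0 ∧ ∀ᶠ R : ℝ in atTop, ∀ t g, |t| ≤ R → g ∈ W R →
      (D i).e1 ![t, 0, 0] * g ∈ W (R ^ k))
    (N : ι → Subgroup G) (hn : ∀ i, (N i).Normal)
    (hN : ∀ i (S : Subgroup G), IsClosed (S : Set G) →
      (∀ g, Contr dd (D i).a g ∨ Contr dd (D i).a⁻¹ g → g ∈ S) → N i ≤ S)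
    (htop : ∀ S : Subgroup G, IsClosed (S : Set G) → (∀ i, N i ≤ S) → S = ⊤)
    {ξ0 ξ : H} (hξ : Hol dd π {ξ}) (h0 : AppW W π ξ0 ξ) :
    ∃ ζ, (∀ g, π g ζ = ζ) ∧ AppW W π ξ0 ζ := by
  classical
  have hcl : ∀ ζ, IsClosed (stab π ζ : Set G) := fun ζ => isClosed_eq (hc ζ) continuous_const
  have key : ∀ s : Finset ι, ∃ ζ, Hol dd π {ζ} ∧ AppW W π ξ0 ζ ∧ ∀ i ∈ s, N i ≤ stab π ζ := by
    intro s
    induction s using Finset.induction_on with
    | empty => exact ⟨ξ, hξ, h0, by simp⟩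
    | insert j s _ ih =>
      obtain ⟨ζ, h1, h2, h3⟩ := ih
      obtain ⟨P, ⟨F, hF, h4⟩, h5, h6⟩ := (hT j).one_factor hs h1
      have h7 : ∀ᶠ p in atTop, ‖(hT j).av p ζ - P ζ‖ ≤ F p := h4.mono fun p hp => hp ζ rfl
      refine ⟨P ζ, by rwa [image_singleton] at h5, (hT j).appW (hW j) h2 hF h7, fun i hi => ?_⟩
      rcases Finset.mem_insert.mp hi with rfl | hi
      · exact hN i _ (hcl _) (h6 ζ rfl)
      · exact (hT j).keep (hn i) (h3 i hi) hF h7
  have := Fintype.ofFinite ι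
  obtain ⟨ζ, -, h2, h3⟩ := key Finset.univ
  refine ⟨ζ, fun g => ?_, h2⟩
  have := htop _ (hcl ζ) fun i => h3 i (Finset.mem_univ i)
  exact (this ▸ Subgroup.mem_top g : g ∈ stab π ζ)

lemma Size.words (hs : Size sz dd) (D : Data sz dd) :
    ∃ k : ℕ, k ≠ 0 ∧ ∀ᶠ R : ℝ in atTop, ∀ t g, |t| ≤ R → g ∈ {g | sz g ≤ R} →
      D.e1 ![t, 0, 0] * g ∈ {g | sz g ≤ R ^ k} := by
  obtain ⟨k, hk⟩ := poly_bound D.u1.poly 1
  refine ⟨k + 1, by omega, ?_⟩
  filter_upwards [hk, eventually_gt_atTop 0] with R h R0 t g ht hg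
  refine (hs.mul _ _).trans ?_
  rw [pow_succ]
  exact mul_le_mul (h _ (by
    rw [pow_one]; exact norm_vec_le ht (by simpa using R0.le) (by simpa using R0.le))) hg
    (by linarith [hs.one_le g]) (by positivity)

theorem all_factors (hs : Size sz dd) (hπ : Grow sz π) {ι : Type*} [Finite ι]
    (D : ι → Data sz dd) (N : ι → Subgroup G) (hn : ∀ i, (N i).Normal)
    (hN : ∀ i (S : Subgroup G), IsClosed (S : Set G) →
      (∀ g, Contr dd (D i).a g ∨ Contr dd (D i).a⁻¹ g → g ∈ S) → N i ≤ S)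
    (htop : ∀ S : Subgroup G, IsClosed (S : Set G) → (∀ i, N i ≤ S) → S = ⊤)
    {ξ : H} (hξ : Hol dd π {ξ}) : ∃ ζ, (∀ g, π g ζ = ζ) ∧ App sz π ξ ζ := by
  refine all_factorsW hs hπ.cont D (fun i => hπ.tame hs _) (fun R => {g | sz g ≤ R})
    (fun i => hs.words _) N hn hN htop hξ ⟨_, sm_inv, ?_⟩
  filter_upwards [eventually_ge_atTop (sz 1), eventually_gt_atTop 0] with R h R0
  exact ⟨ξ, subset_convexHull _ _ ⟨1, h, by simp⟩, by simpa using R0.le⟩

variable [IsTopologicalGroup G] [LocallyCompactSpace G]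

/-- Smoothing with a Lipschitz bump function. -/
theorem smooth (hc : ∀ ξ, Continuous fun g => π g ξ) (hd : ∀ g, 0 ≤ dd g)
    (hloc : ∃ C, ∀ g, dd g ≤ 1 → ‖π g‖ ≤ C) {φ : G → ℝ} (hφ : Continuous φ)
    (hcs : HasCompactSupport φ) (h0 : ∀ g, 0 ≤ φ g) (h1 : 0 < φ 1)
    (hl : ∃ C, ∀ g h, dd g ≤ 1 → |φ (g⁻¹ * h) - φ h| ≤ C * dd g) (ξ0 : H) :
    ∃ ξ, Hol dd π {ξ} ∧ ξ ∈ closure (convexHull ℝ {x | ∃ g ∈ tsupport φ, x = π g ξ0}) := by
  borelize G
  set μ : Measure G := Measure.haar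
  obtain ⟨C, hC⟩ := hloc
  obtain ⟨L, hL⟩ := hl
  obtain ⟨M, hM⟩ := hcs.isCompact.exists_bound_of_continuousOn (hc ξ0).continuousOn
  have hi : Integrable φ μ := hφ.integrable_of_hasCompactSupport hcs
  have hc0 : 0 < ∫ h, φ h ∂μ := hφ.integral_pos_of_hasCompactSupport_nonneg_nonzero hcs h0 h1.ne'
  have hi1 : Integrable (fun h => φ h • π h ξ0) μ :=
    (hφ.smul (hc ξ0)).integrable_of_hasCompactSupport hcs.smul_right
  refine ⟨(∫ h, φ h ∂μ)⁻¹ • ∫ h, φ h • π h ξ0 ∂μ, ⟨⟨_, fun ξ hξ => le_of_eq (congrArg _ hξ)⟩,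
    _, sm_inv.const_mul (c := (∫ h, φ h ∂μ)⁻¹ * (|L| * ((|C| + 1) * |M|) *
      (μ.real (tsupport φ) + μ.real (tsupport φ)))) (by positivity), ?_⟩, ?_⟩
  · filter_upwards [eventually_ge_atTop 1] with q q1
    rintro _ rfl g hg
    have g1 : dd g ≤ 1 := hg.trans (inv_le_one_of_one_le₀ q1)
    have e1 : π g (∫ h, φ h • π h ξ0 ∂μ) = ∫ h, φ (g⁻¹ * h) • π h ξ0 ∂μ := by
      rw [← (π g).integral_comp_comm hi1,
        ← integral_mul_left_eq_self (fun h => φ (g⁻¹ * h) • π h ξ0) g]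
      congr 1
      ext h
      rw [map_smul, inv_mul_cancel_left, map_mul, mul_apply_eq_comp]
    have hi2 : Integrable (fun h => φ (g⁻¹ * h) • π h ξ0) μ := by
      have := ((π g).integrable_comp hi1).comp_mul_left g⁻¹
      refine this.congr (Eventually.of_forall fun h => ?_)
      simp only [map_smul]
      rw [← mul_apply_eq_comp, ← map_mul, mul_inv_cancel_left]
    set K := tsupport φ
    have mK : MeasurableSet K := (isClosed_tsupport φ).measurableSet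
    have fK : μ K ≠ ⊤ := hcs.isCompact.measure_lt_top.ne
    have mK' : MeasurableSet ((g⁻¹ * ·) ⁻¹' K) := measurable_const_mul _ mK
    have eK : μ ((g⁻¹ * ·) ⁻¹' K) = μ K := measure_preimage_mul μ g⁻¹ K
    set c := |L| * ((|C| + 1) * |M|) * q⁻¹ with hcq
    have c0 : 0 ≤ c := by positivity
    have i1 : Integrable (K.indicator fun _ => c) μ :=
      (integrable_indicator_iff mK).mpr (integrableOn_const fK)
    have i2 : Integrable (((g⁻¹ * ·) ⁻¹' K).indicator fun _ => c) μ :=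
      (integrable_indicator_iff mK').mpr (integrableOn_const (eK ▸ fK))
    have hb : ∀ h, ‖π h ξ0‖ ≤ (|C| + 1) * |M| → ‖φ (g⁻¹ * h) • π h ξ0 - φ h • π h ξ0‖ ≤ c := by
      intro h hh
      rw [← sub_smul, norm_smul, Real.norm_eq_abs]
      have := hd g
      calc _ ≤ |L| * q⁻¹ * ((|C| + 1) * |M|) := by
            gcongr
            exact (hL g h g1).trans (by gcongr; exact le_abs_self L)
        _ = _ := by ring
    have key := norm_integral_le_of_norm_le (μ := μ)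
      (f := fun h => φ (g⁻¹ * h) • π h ξ0 - φ h • π h ξ0) (i1.add i2)
      (Eventually.of_forall fun h => by
        have n1 : 0 ≤ K.indicator (fun _ => c) h := indicator_nonneg (fun _ _ => c0) h
        have n2 : 0 ≤ ((g⁻¹ * ·) ⁻¹' K).indicator (fun _ => c) h :=
          indicator_nonneg (fun _ _ => c0) h
        rw [Pi.add_apply]
        by_cases a : h ∈ K
        · rw [indicator_of_mem a]
          refine (hb h ((hM h a).trans ((le_abs_self M).trans ?_))).trans (by linarith)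
          nlinarith [abs_nonneg C, abs_nonneg M]
        by_cases b : g⁻¹ * h ∈ K
        · rw [indicator_of_mem (s := (g⁻¹ * ·) ⁻¹' K) b]
          refine (hb h ?_).trans (by linarith)
          rw [← mul_inv_cancel_left g h, map_mul, mul_apply_eq_comp]
          refine ((π g).le_of_opNorm_le ((hC g g1).trans (le_abs_self C)) _).trans ?_
          gcongr
          · linarith
          · exact (hM _ b).trans (le_abs_self M)
        · rw [image_eq_zero_of_notMem_tsupport a, image_eq_zero_of_notMem_tsupport b]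
          simpa using add_nonneg n1 n2)
    rw [integral_add' i1 i2, integral_indicator mK, integral_indicator mK', setIntegral_const,
      setIntegral_const, Measure.real, Measure.real, eK, ← Measure.real, integral_sub hi2 hi1] at key
    rw [map_smul, ← smul_sub, e1, norm_smul, Real.norm_eq_abs, abs_of_pos (inv_pos.mpr hc0),
      mul_assoc]
    gcongr
    refine key.trans (le_of_eq ?_)
    simp only [smul_eq_mul, hcq]
    ring
  · by_contra hx
    obtain ⟨f, u, hf, hu⟩ := geometric_hahn_banach_closed_point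
      (convex_convexHull ℝ _).closure isClosed_closure hx
    rw [map_smul, ← f.integral_comp_comm hi1, smul_eq_mul, lt_inv_mul_iff₀ hc0,
      ← integral_mul_const] at hu
    refine hu.not_ge (integral_mono (f.integrable_comp hi1) (hi.mul_const u) fun h => ?_)
    simp only [map_smul, smul_eq_mul]
    by_cases a : h ∈ tsupport φ
    · exact mul_le_mul_of_nonneg_left
        (hf _ (subset_closure (subset_convexHull _ _ ⟨h, a, rfl⟩))).le (h0 h)
    · rw [image_eq_zero_of_notMem_tsupport a, zero_mul, zero_mul]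

/-- The main theorem, under growth conditions on the data only. -/
theorem strongTW (hs : Size sz dd) (hc : ∀ ξ, Continuous fun g => π g ξ)
    (hloc : ∃ C, ∀ g, dd g ≤ 1 → ‖π g‖ ≤ C) {ι : Type*}
    [Finite ι] (D : ι → Data sz dd) (hT : ∀ i, Tame π (D i)) (W : ℝ → Set G)
    (hW : ∀ i, ∃ k : ℕ, k ≠ 0 ∧ ∀ᶠ R : ℝ in atTop, ∀ t g, |t| ≤ R → g ∈ W R →
      (D i).e1 ![t, 0, 0] * g ∈ W (R ^ k))
    (N : ι → Subgroup G) (hn : ∀ i, (N i).Normal)
    (hN : ∀ i (S : Subgroup G), IsClosed (S : Set G) →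
      (∀ g, Contr dd (D i).a g ∨ Contr dd (D i).a⁻¹ g → g ∈ S) → N i ≤ S)
    (htop : ∀ S : Subgroup G, IsClosed (S : Set G) → (∀ i, N i ≤ S) → S = ⊤)
    (φ : G → ℝ) (hφ : Continuous φ) (hcs : HasCompactSupport φ) (h0 : ∀ g, 0 ≤ φ g) (h1 : 0 < φ 1)
    (hl : ∃ C, ∀ g h, dd g ≤ 1 → |φ (g⁻¹ * h) - φ h| ≤ C * dd g)
    (hb : ∀ᶠ R in atTop, tsupport φ ⊆ W R) (ξ : H) :
    ∃ ζ, (∀ g, π g ζ = ζ) ∧ AppW W π ξ ζ := by
  obtain ⟨ξ1, h2, h3⟩ := smooth hc hs.dd_nonneg hloc hφ hcs h0 h1 hl ξ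
  refine all_factorsW hs hc D hT W hW N hn hN htop h2 ⟨_, sm_inv, ?_⟩
  filter_upwards [hb, eventually_gt_atTop 0] with R h R0
  obtain ⟨η, hη, e⟩ := Metric.mem_closure_iff.mp h3 R⁻¹ (inv_pos.mpr R0)
  rw [dist_eq_norm] at e
  refine ⟨η, convexHull_mono ?_ hη, e.le⟩
  rintro x ⟨g, hg, hx⟩
  exact ⟨g, h hg, hx⟩

/-- The main theorem: every vector has an invariant vector in the closed convex hull of its
orbit, with a polynomial rate of approximation. -/
theorem strongT (hs : Size sz dd) (hπ : Grow sz π) {ι : Type*} [Finite ι]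
    (D : ι → Data sz dd) (N : ι → Subgroup G) (hn : ∀ i, (N i).Normal)
    (hN : ∀ i (S : Subgroup G), IsClosed (S : Set G) →
      (∀ g, Contr dd (D i).a g ∨ Contr dd (D i).a⁻¹ g → g ∈ S) → N i ≤ S)
    (htop : ∀ S : Subgroup G, IsClosed (S : Set G) → (∀ i, N i ≤ S) → S = ⊤)
    (φ : G → ℝ) (hφ : Continuous φ) (hc : HasCompactSupport φ) (h0 : ∀ g, 0 ≤ φ g) (h1 : 0 < φ 1)
    (hl : ∃ C, ∀ g h, dd g ≤ 1 → |φ (g⁻¹ * h) - φ h| ≤ C * dd g)
    (hb : ∃ C, ∀ g ∈ tsupport φ, sz g ≤ C) (ξ : H) :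
    ∃ ζ, (∀ g, π g ζ = ζ) ∧ App sz π ξ ζ := by
  obtain ⟨B, hB⟩ := hs.loc
  obtain ⟨C, hC⟩ := hπ.grow 1 one_pos
  obtain ⟨A, hA⟩ := hb
  refine strongTW hs hπ.cont ⟨|C| * B, fun g hg => (hC g).trans ?_⟩ D (fun i => hπ.tame hs _)
    (fun R => {g | sz g ≤ R}) (fun i => hs.words _) N hn hN htop φ hφ hc h0 h1 hl ?_ ξ
  · rw [Real.rpow_one]
    exact mul_le_mul (le_abs_self C) (hB g hg) (by linarith [hs.one_le g]) (abs_nonneg C)
  · filter_upwards [eventually_ge_atTop A] with R h g hg using (hA g hg).trans h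

end Pool.Agent.P.MP_d483fb_an.Z.ST
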