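import Pool.Agent.P.MP_d483fb_an.Z.ST.Av

/-! Interface of the averaging theorem for representations of subexponential growth. -/

namespace Pool.Agent.P.MP_d483fb_an.Z.ST

open Filter Topology

/-- The vector group `ℝ³`. -/
abbrev V3 : Type := Fin 3 → ℝ

/-- The action of the small opposite root group on `span (z, x, x₂)`. -/
noncomputable def sh (s : ℝ) (v : V3) : V3 := ![v 0, v 1 + s * v 0, v 2 + s * v 1 + s ^ 2 / 2 * v 0]

variable {G : Type*} [Group G] [TopologicalSpace G]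

/-- `sz` is a multiplicative size, `dd` a distance to the identity. -/
structure Size (sz dd : G → ℝ) : Prop where
  one_le : ∀ g, 1 ≤ sz g
  mul : ∀ g h, sz (g * h) ≤ sz g * sz h
  inv : ∀ g, sz g⁻¹ = sz g
  dd_nonneg : ∀ g, 0 ≤ dd g
  conj : ∀ g h, dd (h⁻¹ * g * h) ≤ sz h ^ 2 * dd g
  loc : ∃ C, ∀ g, dd g ≤ 1 → sz g ≤ C

/-- A continuous homomorphism from a vector group, of polynomial size. -/
structure Unip (sz : G → ℝ) {V : Type*} [NormedAddCommGroup V] (e : V → G) : Prop where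
  add : ∀ u v, e (u + v) = e u * e v
  cont : Continuous e
  poly : ∃ (C : ℝ) (D : ℕ), ∀ v, sz (e v) ≤ C * (1 + ‖v‖) ^ D

/-- A map which is Lipschitz at the origin. -/
def LipAt (dd : G → ℝ) (w : ℝ → G) : Prop := ∃ C, ∀ s, |s| ≤ 1 → dd (w s) ≤ C * |s|

/-- The data attached to a longest root `b = a + c`.  With root vectors `z = [x, y]`,
`e1 v = exp (v 0 z + v 1 x + v 2 x₂)`, `e2 v = exp (v 0 z + v 1 y + v 2 y₂)`,
`w1 s`, `w2 s`, `lo s` are exponentials of root vectors of `-c`, `-a`, `-b`, and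
`a = exp (log 2 • h)` for the `sl₂` triple of `z`. -/
structure Data (sz dd : G → ℝ) where
  e1 : V3 → G
  e2 : V3 → G
  w1 : ℝ → G
  w2 : ℝ → G
  lo : ℝ → G
  a : G
  u1 : Unip sz e1
  u2 : Unip sz e2
  l1 : LipAt dd w1
  l2 : LipAt dd w2
  l3 : LipAt dd lo
  same : ∀ t : ℝ, e1 ![t, 0, 0] = e2 ![t, 0, 0]
  c1 : ∀ s v, w1 s * e1 v = e1 (sh s v) * w1 s
  c2 : ∀ s v, w2 s * e2 v = e2 (sh s v) * w2 s
  heis : ∀ s t r : ℝ, e2 ![t, r, 0] * e1 ![0, s, 0] = e1 ![0, s, 0] * e2 ![t - s * r, r, 0]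
  sl : ∀ d : ℝ, 0 < d → e1 ![d⁻¹, 0, 0] * lo d * e1 ![-(2 * d)⁻¹, 0, 0] = a * lo (2 * d)

/-- `g` is exponentially contracted by conjugation with the powers of `a`. -/
def Contr (dd : G → ℝ) (a g : G) : Prop :=
  ∃ C β : ℝ, 0 ≤ β ∧ β < 1 ∧ ∀ n : ℕ, dd (a ^ n * g * (a ^ n)⁻¹) ≤ C * β ^ n

variable {H : Type*} [NormedAddCommGroup H] [NormedSpace ℝ H]

/-- A strongly continuous representation of subexponential growth. -/
structure Grow (sz : G → ℝ) (π : G →* (H →L[ℝ] H)) : Prop where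
  cont : ∀ ξ, Continuous fun g => π g ξ
  grow : ∀ ε : ℝ, 0 < ε → ∃ C, ∀ g, ‖π g‖ ≤ C * sz g ^ ε

/-- Decay like a negative power. -/
def Sm (F : ℝ → ℝ) : Prop := ∃ κ : ℝ, 0 < κ ∧ ∃ C, ∀ᶠ q in atTop, F q ≤ C * q ^ (-κ)

/-- Growth slower than every positive power. -/
def Sb (F : ℝ → ℝ) : Prop := ∀ ε : ℝ, 0 < ε → ∃ C, ∀ᶠ q in atTop, F q ≤ C * q ^ ε

/-- A bounded set of uniformly Hölder vectors. -/
structure Hol (dd : G → ℝ) (π : G →* (H →L[ℝ] H)) (S : Set H) : Prop where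
  bdd : ∃ B, ∀ ξ ∈ S, ‖ξ‖ ≤ B
  hol : ∃ F, Sm F ∧ ∀ᶠ q in atTop, ∀ ξ ∈ S, ∀ g, dd g ≤ q⁻¹ → ‖π g ξ - ξ‖ ≤ F q

/-- `ζ` is approximated at a polynomial rate by convex combinations of translates of `ξ`. -/
def App (sz : G → ℝ) (π : G →* (H →L[ℝ] H)) (ξ ζ : H) : Prop :=
  ∃ F, Sm F ∧ ∀ᶠ R in atTop, ∃ η ∈ convexHull ℝ {x | ∃ g, sz g ≤ R ∧ x = π g ξ}, ‖ζ - η‖ ≤ F R

/-- The representation of a vector group induced by a homomorphism. -/
def Grow.rep {sz : G → ℝ} {π : G →* (H →L[ℝ] H)} (hπ : Grow sz π) {V : Type*}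
    [NormedAddCommGroup V] {e : V → G} (he : Unip sz e) : Rep V H where
  τ v := π (e v)
  add u v := by rw [he.add, map_mul]
  zero := by
    have h := he.add 0 0
    rw [add_zero, left_eq_mul] at h
    rw [h, map_one]
  cont ξ := (hπ.cont ξ).comp he.cont

/-- The average over the longest root group. -/
noncomputable def Data.avz [CompleteSpace H] {sz dd : G → ℝ} (D : Data sz dd)
    {π : G →* (H →L[ℝ] H)} (hπ : Grow sz π) (p : ℝ) : H →L[ℝ] H :=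
  (hπ.rep D.u1).av ![1, 0, 0] p

end Pool.Agent.P.MP_d483fb_an.Z.ST
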