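import Mathlib

/-! Averages along one-parameter groups in a strongly continuous representation of a vector
group, and a Bessel inequality in the unitary case. -/

namespace Pool.Agent.P.MP_d483fb_an.Z.ST

open MeasureTheory Set

/-- A strongly continuous representation of the additive group `V` on `H`. -/
structure Rep (V H : Type*) [NormedAddCommGroup V] [NormedAddCommGroup H] [NormedSpace ℝ H] where
  τ : V → H →L[ℝ] H
  add : ∀ u v, τ (u + v) = τ u * τ v
  zero : τ 0 = 1
  cont : ∀ ξ, Continuous fun v => τ v ξ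

namespace Rep

section Banach
variable {V H : Type*} [NormedAddCommGroup V] [NormedSpace ℝ V] [NormedAddCommGroup H]
  [NormedSpace ℝ H] [CompleteSpace H] (T : Rep V H)

omit [CompleteSpace H] in
lemma cont_line (v : V) (ξ : H) : Continuous fun t : ℝ => T.τ (t • v) ξ :=
  (T.cont ξ).comp (continuous_id.smul continuous_const)

omit [NormedSpace ℝ V] in
lemma exists_bound {K : Set V} (hK : IsCompact K) : ∃ C, ∀ v ∈ K, ‖T.τ v‖ ≤ C := by
  have h : ∀ ξ, ∃ C, ∀ v : K, ‖T.τ v ξ‖ ≤ C := fun ξ => by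
    obtain ⟨C, hC⟩ := hK.exists_bound_of_continuousOn (T.cont ξ).continuousOn
    exact ⟨C, fun v => hC v v.2⟩
  obtain ⟨C, hC⟩ := banach_steinhaus h
  exact ⟨C, fun v hv => hC ⟨v, hv⟩⟩

omit [CompleteSpace H] in
lemma norm_int_le (v : V) (a b om : ℝ) (h : ∀ t ∈ uIcc a b, ‖T.τ (t • v)‖ ≤ om) (ξ : H) :
    ‖∫ t in a..b, T.τ (t • v) ξ‖ ≤ om * ‖ξ‖ * |b - a| :=
  intervalIntegral.norm_integral_le_of_norm_le_const fun t ht =>
    (T.τ (t • v)).le_of_opNorm_le (h t (uIoc_subset_uIcc ht)) ξ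

/-- The average of `τ (t • v)` over `0 ≤ t ≤ p`. -/
noncomputable def av (v : V) (p : ℝ) : H →L[ℝ] H :=
  LinearMap.mkContinuousOfExistsBound
    { toFun := fun ξ => p⁻¹ • ∫ t in (0 : ℝ)..p, T.τ (t • v) ξ
      map_add' := fun a b => by
        simp only [map_add]
        rw [intervalIntegral.integral_add ((T.cont_line v a).intervalIntegrable _ _)
          ((T.cont_line v b).intervalIntegrable _ _), smul_add]
      map_smul' := fun c a => by
        simp only [map_smul, intervalIntegral.integral_smul, RingHom.id_apply]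
        rw [smul_comm] }
    (by
      obtain ⟨C, hC⟩ := T.exists_bound
        ((isCompact_uIcc (a := (0 : ℝ)) (b := p)).image (f := fun t : ℝ => t • v)
          (continuous_id.smul continuous_const))
      refine ⟨‖p⁻¹‖ * (C * |p - 0|), fun ξ => ?_⟩
      have := T.norm_int_le v 0 p C (fun t ht => hC _ ⟨t, ht, rfl⟩) ξ
      simp only [LinearMap.coe_mk, AddHom.coe_mk, norm_smul]
      calc _ ≤ ‖p⁻¹‖ * (C * ‖ξ‖ * |p - 0|) := by gcongr
        _ = _ := by ring)

lemma av_apply (v : V) (p : ℝ) (ξ : H) :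
    T.av v p ξ = p⁻¹ • ∫ t in (0 : ℝ)..p, T.τ (t • v) ξ := rfl

lemma norm_av_le {v : V} {p om : ℝ} (hp : 0 < p) (h : ∀ t ∈ Icc 0 p, ‖T.τ (t • v)‖ ≤ om) :
    ‖T.av v p‖ ≤ om := by
  have h0 : 0 ≤ om := (norm_nonneg _).trans (h 0 ⟨le_rfl, hp.le⟩)
  refine ContinuousLinearMap.opNorm_le_bound _ h0 fun ξ => ?_
  have := T.norm_int_le v 0 p om (fun t ht => h t (by rwa [uIcc_of_le hp.le] at ht)) ξ
  rw [av_apply, norm_smul, Real.norm_eq_abs, abs_of_pos (inv_pos.mpr hp)]
  rw [sub_zero, abs_of_pos hp] at this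
  calc _ ≤ p⁻¹ * (om * ‖ξ‖ * p) := by gcongr
    _ = _ := by field_simp

/-- If all translates of `ξ` are close to `η` then so is the average. -/
lemma norm_av_sub_le {v : V} {p c : ℝ} (hp : 0 < p) {ξ η : H}
    (h : ∀ t ∈ Icc 0 p, ‖T.τ (t • v) ξ - η‖ ≤ c) : ‖T.av v p ξ - η‖ ≤ c := by
  have e : T.av v p ξ - η = p⁻¹ • ∫ t in (0 : ℝ)..p, (T.τ (t • v) ξ - η) := by
    rw [intervalIntegral.integral_sub ((T.cont_line v ξ).intervalIntegrable _ _)
      (continuous_const.intervalIntegrable _ _), av_apply, smul_sub]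
    simp [smul_smul, hp.ne']
  have := intervalIntegral.norm_integral_le_of_norm_le_const (a := 0) (b := p) (C := c)
    (f := fun t => T.τ (t • v) ξ - η) fun t ht => h t (by
      rw [uIoc_of_le hp.le] at ht; exact Ioc_subset_Icc_self ht)
  rw [e, norm_smul, Real.norm_eq_abs, abs_of_pos (inv_pos.mpr hp)]
  rw [sub_zero, abs_of_pos hp] at this
  calc _ ≤ p⁻¹ * (c * p) := by gcongr
    _ = _ := by field_simp

lemma map_av {H' : Type*} [NormedAddCommGroup H'] [NormedSpace ℝ H'] [CompleteSpace H']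
    (S : H →L[ℝ] H') (v : V) (p : ℝ) (ξ : H) :
    S (T.av v p ξ) = p⁻¹ • ∫ t in (0 : ℝ)..p, S (T.τ (t • v) ξ) := by
  rw [av_apply, map_smul, S.intervalIntegral_comp_comm ((T.cont_line v ξ).intervalIntegrable _ _)]

/-- Intertwining of averages. -/
lemma av_conj {V' : Type*} [NormedAddCommGroup V'] [NormedSpace ℝ V'] (T' : Rep V' H)
    {S S' : H →L[ℝ] H} {v : V} {v' : V'} (h : ∀ t : ℝ, S * T.τ (t • v) = T'.τ (t • v') * S')
    (p : ℝ) : S * T.av v p = T'.av v' p * S' := by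
  ext ξ
  rw [mul_apply_eq_comp, map_av, mul_apply_eq_comp, av_apply]
  congr 2
  ext t
  exact congrArg (· ξ) (h t)

omit [NormedSpace ℝ V] [CompleteSpace H] in
lemma commute_τ (u v : V) : Commute (T.τ u) (T.τ v) := by
  rw [Commute, SemiconjBy, ← T.add, ← T.add, add_comm]

lemma commute_av {S : H →L[ℝ] H} (h : ∀ u, Commute S (T.τ u)) (v : V) (p : ℝ) :
    Commute S (T.av v p) := T.av_conj T (fun _ => h _) p

lemma commute_τ_av (u v : V) (p : ℝ) : Commute (T.τ u) (T.av v p) :=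
  T.commute_av (T.commute_τ u) v p

lemma commute_av_av (u v : V) (p q : ℝ) : Commute (T.av u p) (T.av v q) :=
  T.commute_av (fun w => (T.commute_τ_av w u p).symm) v q

lemma norm_av_shift {v : V} {p c om : ℝ} (hp : 0 < p)
    (h : ∀ t : ℝ, |t| ≤ p + |c| → ‖T.τ (t • v)‖ ≤ om) :
    ‖T.av v p * (T.τ (c • v) - 1)‖ ≤ 2 * om * |c| / p := by
  have h0 : 0 ≤ om := (norm_nonneg _).trans (h 0 (by rw [abs_zero]; positivity))
  refine ContinuousLinearMap.opNorm_le_bound _ (by positivity) fun ξ => ?_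
  have hi : ∀ a b, IntervalIntegrable (fun t : ℝ => T.τ (t • v) ξ) volume a b :=
    fun a b => (T.cont_line v ξ).intervalIntegrable a b
  have e1 : ∫ t in (0 : ℝ)..p, T.τ (t • v) (T.τ (c • v) ξ) = ∫ t in c..p + c, T.τ (t • v) ξ := by
    have := intervalIntegral.integral_comp_add_right (a := 0) (b := p)
      (fun t : ℝ => T.τ (t • v) ξ) c
    rw [zero_add] at this
    rw [← this]
    congr 1
    ext t
    rw [add_smul, T.add, mul_apply_eq_comp]
  have e : (T.av v p * (T.τ (c • v) - 1)) ξ =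
      p⁻¹ • ((∫ t in p..p + c, T.τ (t • v) ξ) - ∫ t in (0 : ℝ)..c, T.τ (t • v) ξ) := by
    rw [mul_apply_eq_comp, sub_apply, map_sub, av_apply, e1,
      one_apply_eq_self, av_apply, ← smul_sub,
      intervalIntegral.integral_interval_sub_interval_comm' (hi _ _) (hi _ _) (hi _ _)]
  have b1 := T.norm_int_le v p (p + c) om (fun t ht => h t (by
    have := abs_sub_left_of_mem_uIcc ht
    rw [add_sub_cancel_left] at this
    have h2 := abs_sub_abs_le_abs_sub t p
    rw [abs_of_pos hp] at h2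
    linarith)) ξ
  have b2 := T.norm_int_le v 0 c om (fun t ht => h t (by
    have := abs_sub_left_of_mem_uIcc ht
    rw [sub_zero, sub_zero] at this
    linarith)) ξ
  rw [add_sub_cancel_left] at b1
  rw [sub_zero] at b2
  rw [e, norm_smul, Real.norm_eq_abs, abs_of_pos (inv_pos.mpr hp)]
  calc _ ≤ p⁻¹ * (om * ‖ξ‖ * |c| + om * ‖ξ‖ * |c|) := by
        gcongr; exact (norm_sub_le _ _).trans (add_le_add b1 b2)
    _ = _ := by field_simp; ring

lemma av_mem {v : V} {p : ℝ} (hp : 0 < p) {ξ : H} {K : Set H} (hK : Convex ℝ K) (hc : IsClosed K)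
    (h : ∀ t ∈ Icc 0 p, T.τ (t • v) ξ ∈ K) : T.av v p ξ ∈ K := by
  have hm : volume.real (Ioc (0 : ℝ) p) = p := by simp [hp.le]
  have := hK.set_average_mem hc (μ := volume) (t := Ioc 0 p) (f := fun t : ℝ => T.τ (t • v) ξ)
    (by simp [hp]) (by simp)
    (ae_restrict_of_forall_mem measurableSet_Ioc fun t ht => h t (Ioc_subset_Icc_self ht))
    ((T.cont_line v ξ).intervalIntegrable 0 p).1
  rwa [setAverage_eq, hm, ← intervalIntegral.integral_of_le hp.le] at this

end Banach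

end Rep

end Pool.Agent.P.MP_d483fb_an.Z.ST
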