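import Pool.Agent.P.MP_d483fb_an.Z.ST.Defs

/-! A Bessel inequality for averages in different directions: the unitary case, then
transference to representations which are bounded on a box. -/

namespace Pool.Agent.P.MP_d483fb_an.Z.ST

open MeasureTheory Set
open scoped RealInnerProductSpace

namespace Rep

section Unitary
variable {V K : Type*} [NormedAddCommGroup V] [NormedSpace ℝ V] [NormedAddCommGroup K]
  [InnerProductSpace ℝ K] [CompleteSpace K] (T : Rep V K)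

/-- The operator `Av (v, p) (τ u - 1)`. -/
noncomputable def M {H : Type*} [NormedAddCommGroup H] [NormedSpace ℝ H] [CompleteSpace H]
    (T : Rep V H) (v u : V) (p : ℝ) : H →L[ℝ] H := T.av v p * (T.τ u - 1)

omit [NormedSpace ℝ V] in
lemma star_τ (hU : ∀ v ζ, ‖T.τ v ζ‖ = ‖ζ‖) (u : V) : star (T.τ u) = T.τ (-u) := by
  rw [ContinuousLinearMap.star_eq_adjoint, eq_comm, ContinuousLinearMap.eq_adjoint_iff]
  intro a b
  have h := LinearIsometry.inner_map_map (𝕜 := ℝ) ⟨(T.τ u : K →ₗ[ℝ] K), hU u⟩ (T.τ (-u) a) b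
  have e : T.τ u (T.τ (-u) a) = a := by
    rw [← mul_apply_eq_comp, ← T.add, add_neg_cancel, T.zero, one_apply_eq_self]
  change ⟪T.τ u (T.τ (-u) a), T.τ u b⟫ = _ at h
  rw [← h, e]

omit [NormedSpace ℝ V] [CompleteSpace K] in
lemma norm_τ_le (hU : ∀ v ζ, ‖T.τ v ζ‖ = ‖ζ‖) (u : V) : ‖T.τ u‖ ≤ 1 :=
  ContinuousLinearMap.opNorm_le_bound _ zero_le_one fun ζ => by rw [hU, one_mul]

omit [NormedSpace ℝ V] [CompleteSpace K] in
lemma norm_τ_sub_le (hU : ∀ v ζ, ‖T.τ v ζ‖ = ‖ζ‖) (u : V) : ‖T.τ u - 1‖ ≤ 2 := by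
  have h1 : ‖(1 : K →L[ℝ] K)‖ ≤ 1 := ContinuousLinearMap.norm_id_le
  have := norm_sub_le (T.τ u) 1
  linarith [T.norm_τ_le hU u]

lemma norm_mul_le_of {R : Type*} [NormedRing R] {a b : R} {x y : ℝ} (ha : ‖a‖ ≤ x)
    (hb : ‖b‖ ≤ y) : ‖a * b‖ ≤ x * y :=
  (norm_mul_le a b).trans (mul_le_mul ha hb (norm_nonneg _) ((norm_nonneg _).trans ha))

lemma norm_M_le (hU : ∀ v ζ, ‖T.τ v ζ‖ = ‖ζ‖) (v u : V) {p : ℝ} (hp : 0 < p) :
    ‖T.M v u p‖ ≤ 2 := by
  have := norm_mul_le_of (T.norm_av_le (v := v) hp fun t _ => T.norm_τ_le hU _)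
    (T.norm_τ_sub_le hU u)
  rwa [one_mul] at this

omit [NormedSpace ℝ V] in
lemma norm_star_op (S : K →L[ℝ] K) : ‖star S‖ = ‖S‖ :=
  LinearIsometryEquiv.norm_map ContinuousLinearMap.adjoint S

omit [NormedSpace ℝ V] in
lemma norm_sq_op {S : K →L[ℝ] K} (h : star S = S) : ‖S * S‖ = ‖S‖ * ‖S‖ := by
  have := ContinuousLinearMap.norm_adjoint_comp_self S
  rwa [← ContinuousLinearMap.star_eq_adjoint, h] at this

lemma commute_M {H : Type*} [NormedAddCommGroup H] [NormedSpace ℝ H] [CompleteSpace H]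
    (T : Rep V H) {S : H →L[ℝ] H} (h : ∀ u, Commute S (T.τ u)) (v u : V) (p : ℝ) :
    Commute S (T.M v u p) :=
  (T.commute_av h v p).mul_right ((h u).sub_right (Commute.one_right S))

lemma commute_star_M (hU : ∀ v ζ, ‖T.τ v ζ‖ = ‖ζ‖) (v u v' u' : V) (p : ℝ) :
    Commute (star (T.M v u p)) (T.M v' u' p) := by
  refine T.commute_M (fun w => ?_) v' u' p
  have := (T.commute_M (T.commute_τ (-w)) v u p).star_star
  rw [T.star_τ hU, neg_neg] at this
  exact this.symm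

lemma norm_three (hU : ∀ v ζ, ‖T.τ v ζ‖ = ‖ζ‖) {p ρ : ℝ} (hp : 0 < p) (v1 v2 v3 : V)
    {c1 c2 c3 : ℝ} (h1 : |c1| ≤ ρ) (h2 : |c2| ≤ ρ) (h3 : |c3| ≤ ρ) :
    ‖T.av v1 p * T.av v2 p * T.av v3 p * (T.τ (c1 • v1 + c2 • v2 + c3 • v3) - 1)‖ ≤
      6 * (ρ / p) := by
  have hs : ∀ (v : V) (c : ℝ), |c| ≤ ρ → ‖T.av v p * (T.τ (c • v) - 1)‖ ≤ 2 * (ρ / p) := by
    intro v c hc
    refine (T.norm_av_shift (om := 1) hp fun t _ => T.norm_τ_le hU _).trans ?_
    rw [mul_one, mul_div_assoc]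
    gcongr
  have ha : ∀ v : V, ‖T.av v p‖ ≤ 1 := fun v => T.norm_av_le hp fun t _ => T.norm_τ_le hU _
  have k12 := T.commute_av_av v1 v2 p p
  have k13 := T.commute_av_av v1 v3 p p
  have k23 := T.commute_av_av v2 v3 p p
  have e1 : T.av v1 p * T.av v2 p * T.av v3 p = T.av v2 p * T.av v3 p * T.av v1 p :=
    by rw [mul_assoc]; exact (k12.mul_right k13).eq
  have e2 : T.av v1 p * T.av v2 p * T.av v3 p = T.av v1 p * T.av v3 p * T.av v2 p :=
    by rw [mul_assoc, k23.eq, mul_assoc]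
  have b1 : ‖T.av v1 p * T.av v2 p * T.av v3 p * (T.τ (c1 • v1) - 1)‖ ≤ 1 * 1 * (2 * (ρ / p)) := by
    rw [e1, mul_assoc]; exact norm_mul_le_of (norm_mul_le_of (ha _) (ha _)) (hs _ _ h1)
  have b2 : ‖T.av v1 p * T.av v2 p * T.av v3 p * (T.τ (c2 • v2) - 1)‖ ≤ 1 * 1 * (2 * (ρ / p)) := by
    rw [e2, mul_assoc]; exact norm_mul_le_of (norm_mul_le_of (ha _) (ha _)) (hs _ _ h2)
  have b3 : ‖T.av v1 p * T.av v2 p * T.av v3 p * (T.τ (c3 • v3) - 1)‖ ≤ 1 * 1 * (2 * (ρ / p)) := by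
    rw [mul_assoc]; exact norm_mul_le_of (norm_mul_le_of (ha _) (ha _)) (hs _ _ h3)
  rw [T.add, T.add]
  generalize T.av v1 p * T.av v2 p * T.av v3 p = Y at b1 b2 b3 ⊢
  have e : Y * (T.τ (c1 • v1) * T.τ (c2 • v2) * T.τ (c3 • v3) - 1) =
      Y * (T.τ (c1 • v1) - 1) * T.τ (c2 • v2) * T.τ (c3 • v3) +
        Y * (T.τ (c2 • v2) - 1) * T.τ (c3 • v3) + Y * (T.τ (c3 • v3) - 1) := by noncomm_ring
  rw [e]
  have d1 := norm_mul_le_of (norm_mul_le_of b1 (T.norm_τ_le hU (c2 • v2)))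
    (T.norm_τ_le hU (c3 • v3))
  have d2 := norm_mul_le_of b2 (T.norm_τ_le hU (c3 • v3))
  have := norm_add₃_le (a := Y * (T.τ (c1 • v1) - 1) * T.τ (c2 • v2) * T.τ (c3 • v3))
    (b := Y * (T.τ (c2 • v2) - 1) * T.τ (c3 • v3)) (c := Y * (T.τ (c3 • v3) - 1))
  linarith

lemma norm_AAA (hU : ∀ v ζ, ‖T.τ v ζ‖ = ‖ζ‖) {p ρ : ℝ} (hp : 0 < p) (v1 v2 v3 u1 u2 u3 : V)
    {c1 c2 c3 : ℝ} (h1 : |c1| ≤ ρ) (h2 : |c2| ≤ ρ) (h3 : |c3| ≤ ρ)
    (hu : u1 = c1 • v1 + c2 • v2 + c3 • v3) :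
    ‖star (T.M v1 u1 p) * T.M v1 u1 p * (star (T.M v2 u2 p) * T.M v2 u2 p) *
      (star (T.M v3 u3 p) * T.M v3 u3 p)‖ ≤ 192 * (ρ / p) := by
  have hn : ∀ (u v : V), Commute (T.τ u - 1) (T.av v p) :=
    fun u v => (T.commute_τ_av u v p).sub_left (Commute.one_left _)
  have e1 : T.M v1 u1 p * T.M v2 u2 p * T.M v3 u3 p =
      T.av v1 p * T.av v2 p * T.av v3 p * (T.τ u1 - 1) * (T.τ u2 - 1) * (T.τ u3 - 1) := by
    simp only [M, mul_assoc]
    rw [(hn u2 v3).left_comm, (hn u1 v2).left_comm, (hn u1 v3).left_comm]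
  have b1 : ‖T.M v1 u1 p * T.M v2 u2 p * T.M v3 u3 p‖ ≤ 6 * (ρ / p) * 2 * 2 := by
    rw [e1]
    refine norm_mul_le_of (norm_mul_le_of ?_ (T.norm_τ_sub_le hU _)) (T.norm_τ_sub_le hU _)
    rw [hu]
    exact T.norm_three hU hp v1 v2 v3 h1 h2 h3
  have e2 : star (T.M v1 u1 p) * T.M v1 u1 p * (star (T.M v2 u2 p) * T.M v2 u2 p) *
      (star (T.M v3 u3 p) * T.M v3 u3 p) =
      star (T.M v1 u1 p) * star (T.M v2 u2 p) * star (T.M v3 u3 p) *
        (T.M v1 u1 p * T.M v2 u2 p * T.M v3 u3 p) := by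
    simp only [mul_assoc]
    rw [(T.commute_star_M hU v3 u3 v2 u2 p).symm.left_comm,
      (T.commute_star_M hU v2 u2 v1 u1 p).symm.left_comm,
      (T.commute_star_M hU v3 u3 v1 u1 p).symm.left_comm]
  have hs : ∀ v u : V, ‖star (T.M v u p)‖ ≤ 2 := fun v u => by
    rw [norm_star_op]; exact T.norm_M_le hU v u hp
  rw [e2]
  refine (norm_mul_le_of (norm_mul_le_of (norm_mul_le_of (hs _ _) (hs _ _)) (hs _ _)) b1).trans
    (le_of_eq (by ring))

theorem bessel_unitary (hU : ∀ v ζ, ‖T.τ v ζ‖ = ‖ζ‖) {N : ℕ} (hN : 0 < N) (v u : Fin N → V)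
    {p ρ κ : ℝ} (hp : 0 < p) (hρ : 0 ≤ ρ) (hκ0 : 0 ≤ κ)
    (hrel : ∀ i j k, i ≠ j → j ≠ k → i ≠ k → ∃ c1 c2 c3 : ℝ, |c1| ≤ ρ ∧ |c2| ≤ ρ ∧ |c3| ≤ ρ ∧
      u i = c1 • v i + c2 • v j + c3 • v k)
    (hκ : 192 * (ρ / p + 1 / N) ≤ κ ^ 3) (ζ : K) :
    ∃ i, ‖T.M (v i) (u i) p ζ‖ ^ 2 ≤ κ * ‖ζ‖ ^ 2 := by
  classical
  set A : Fin N → K →L[ℝ] K := fun i => star (T.M (v i) (u i) p) * T.M (v i) (u i) p with hA
  have hA4 : ∀ i, ‖A i‖ ≤ 2 * 2 := fun i =>
    norm_mul_le_of (by rw [norm_star_op]; exact T.norm_M_le hU _ _ hp) (T.norm_M_le hU _ _ hp)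
  have hN' : (0 : ℝ) < N := by exact_mod_cast hN
  have hb : ∀ i j k, ‖A i * A j * A k‖ ≤ 192 * (ρ / p) + 64 * ((if i = j then 1 else 0) +
      (if j = k then 1 else 0) + (if i = k then 1 else 0)) := by
    intro i j k
    have h64 := norm_mul_le_of (norm_mul_le_of (hA4 i) (hA4 j)) (hA4 k)
    have h0 : 0 ≤ ρ / p := by positivity
    by_cases hij : i = j
    · rw [if_pos hij]; split_ifs <;> linarith
    by_cases hjk : j = k
    · rw [if_pos hjk]; split_ifs <;> linarith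
    by_cases hik : i = k
    · rw [if_pos hik, if_neg hij, if_neg hjk]; linarith
    obtain ⟨c1, c2, c3, h1, h2, h3, hu⟩ := hrel i j k hij hjk hik
    rw [if_neg hij, if_neg hjk, if_neg hik]
    have := T.norm_AAA hU hp (v i) (v j) (v k) (u i) (u j) (u k) h1 h2 h3 hu
    linarith
  set S := ∑ i, A i with hS
  have hS3 : ‖S * S * S‖ ≤ (N * κ) ^ 3 := by
    have e : S * S * S = ∑ i, ∑ j, ∑ k, A i * A j * A k := by
      rw [hS, Finset.sum_mul_sum, Finset.sum_mul]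
      refine Finset.sum_congr rfl fun _ _ => ?_
      rw [Finset.sum_mul_sum]
    rw [e]
    refine (norm_sum_le_of_le _ fun i _ => norm_sum_le_of_le _ fun j _ =>
      norm_sum_le_of_le _ fun k _ => hb i j k).trans ?_
    simp only [mul_add, Finset.sum_add_distrib, ← Finset.mul_sum, Finset.sum_ite_eq,
      Finset.mem_univ, if_true, Finset.sum_const, Finset.card_univ,
      Fintype.card_fin, nsmul_eq_mul, mul_one]
    have : (N : ℝ) ^ 3 * (192 * (ρ / p + 1 / N)) ≤ (N : ℝ) ^ 3 * κ ^ 3 := by gcongr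
    refine le_trans (le_of_eq ?_) (this.trans (le_of_eq (by ring)))
    field_simp
    ring
  have hsa : IsSelfAdjoint S := isSelfAdjoint_sum _ fun i _ => IsSelfAdjoint.star_mul_self _
  have hSn : ‖S‖ ≤ N * κ := by
    rcases (norm_nonneg S).eq_or_lt with h0 | h0
    · rw [← h0]; positivity
    have h4 : ‖S * S * (S * S)‖ = ‖S‖ * ‖S‖ * (‖S‖ * ‖S‖) := by
      rw [norm_sq_op (by rw [star_mul, hsa.star_eq]), norm_sq_op hsa.star_eq]
    have e : S * S * (S * S) = S * (S * S * S) := by noncomm_ring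
    have h5 := norm_mul_le_of (le_refl ‖S‖) hS3
    rw [← e, h4] at h5
    have h6 : ‖S‖ ^ 3 ≤ (N * κ) ^ 3 := by
      refine le_of_mul_le_mul_left ?_ h0
      calc _ = ‖S‖ * ‖S‖ * (‖S‖ * ‖S‖) := by ring
        _ ≤ _ := h5
    exact le_of_pow_le_pow_left₀ (by norm_num) (by positivity) h6
  have hsum : ∑ i, ‖T.M (v i) (u i) p ζ‖ ^ 2 ≤ ∑ _i : Fin N, κ * ‖ζ‖ ^ 2 := by
    have e : ∑ i, ‖T.M (v i) (u i) p ζ‖ ^ 2 = ⟪S ζ, ζ⟫ := by
      rw [hS, sum_apply, sum_inner]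
      refine Finset.sum_congr rfl fun i _ => ?_
      rw [hA]
      simp only [mul_apply_eq_comp, ContinuousLinearMap.star_eq_adjoint,
        ContinuousLinearMap.adjoint_inner_left, real_inner_self_eq_norm_sq]
    rw [e, Finset.sum_const, Finset.card_univ, Fintype.card_fin, nsmul_eq_mul]
    calc _ ≤ ‖S ζ‖ * ‖ζ‖ := real_inner_le_norm _ _
      _ ≤ N * κ * ‖ζ‖ * ‖ζ‖ := by gcongr; exact S.le_of_opNorm_le hSn ζ
      _ = _ := by ring
  obtain ⟨i, -, hi⟩ := Finset.exists_le_of_sum_le ⟨⟨0, hN⟩, Finset.mem_univ _⟩ hsum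
  exact ⟨i, hi⟩

end Unitary

section Transfer
variable {H : Type*} [NormedAddCommGroup H] [InnerProductSpace ℝ H] [CompleteSpace H]

omit [InnerProductSpace ℝ H] [CompleteSpace H] in
lemma cmp_congr {f g : V3 → V3} (hf : MeasurePreserving f volume volume)
    (hg : MeasurePreserving g volume volume) (h : f = g) (a : Lp H 2 (volume : Measure V3)) :
    Lp.compMeasurePreserving f hf a = Lp.compMeasurePreserving g hg a := by
  subst h; rfl

/-- Translations on `L²`. -/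
noncomputable def tr (H : Type*) [NormedAddCommGroup H] [InnerProductSpace ℝ H] :
    Rep V3 (Lp H 2 (volume : Measure V3)) where
  τ u := (Lp.compMeasurePreservingₗᵢ ℝ (fun x => x + u)
    (measurePreserving_add_right volume u)).toContinuousLinearMap
  add u v := by
    refine ContinuousLinearMap.ext fun a => ?_
    exact (cmp_congr _ ((measurePreserving_add_right volume v).comp
      (measurePreserving_add_right volume u)) (funext fun x => (add_assoc x u v).symm) a).trans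
      (Lp.compMeasurePreserving_comp_apply a _ _)
  zero := by
    refine ContinuousLinearMap.ext fun a => ?_
    exact (cmp_congr _ (MeasurePreserving.id _) (funext fun x => add_zero x) a).trans
      (Lp.compMeasurePreserving_id_apply a)
  cont a := by
    let g : V3 → C(V3, V3) := fun u => ⟨fun x => x + u, by fun_prop⟩
    have hg : Continuous g := ContinuousMap.continuous_of_continuous_uncurry g
      (continuous_snd.add continuous_fst)
    exact Continuous.compMeasurePreservingLp (f := fun _ => a) (g := g) continuous_const hg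
      (fun u => measurePreserving_add_right volume u) (by simp)

omit [CompleteSpace H] in
lemma tr_norm (u : V3) (a : Lp H 2 (volume : Measure V3)) : ‖(tr H).τ u a‖ = ‖a‖ :=
  Lp.norm_compMeasurePreserving a (measurePreserving_add_right volume u)

omit [CompleteSpace H] in
lemma tr_coe (u : V3) (a : Lp H 2 (volume : Measure V3)) :
    (tr H).τ u a =ᵐ[volume] fun x => a (x + u) :=
  Lp.coeFn_compMeasurePreserving a (measurePreserving_add_right volume u)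

variable (T : Rep V3 H)

omit [CompleteSpace H] in
lemma memLp_orb (r : ℝ) (ξ : H) :
    MemLp ((Metric.closedBall (0 : V3) r).indicator fun x => T.τ x ξ) 2 volume := by
  obtain ⟨C, hC⟩ := (isCompact_closedBall (0 : V3) r).exists_bound_of_continuousOn
    (T.cont ξ).continuousOn
  rw [memLp_indicator_iff_restrict measurableSet_closedBall]
  have : IsFiniteMeasure (volume.restrict (Metric.closedBall (0 : V3) r)) :=
    isFiniteMeasure_restrict.mpr measure_closedBall_lt_top.ne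
  exact MemLp.of_bound (T.cont ξ).aestronglyMeasurable C
    (ae_restrict_of_forall_mem measurableSet_closedBall hC)

omit [CompleteSpace H] in
lemma norm_orb_sq (r : ℝ) (ξ : H) : ‖(T.memLp_orb r ξ).toLp _‖ ^ 2 =
    ∫ x in Metric.closedBall (0 : V3) r, ‖T.τ x ξ‖ ^ 2 := by
  rw [← real_inner_self_eq_norm_sq, L2.inner_def, ← integral_indicator measurableSet_closedBall]
  refine integral_congr_ae ?_
  filter_upwards [(T.memLp_orb r ξ).coeFn_toLp] with x hx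
  rw [hx, real_inner_self_eq_norm_sq]
  by_cases h : x ∈ Metric.closedBall (0 : V3) r <;> simp [h]

lemma vol_ball {r : ℝ} (hr : 0 ≤ r) : volume.real (Metric.closedBall (0 : V3) r) = (2 * r) ^ 3 := by
  rw [Measure.real, Real.volume_pi_closedBall _ hr, ENNReal.toReal_ofReal (by positivity)]
  simp

omit [CompleteSpace H] in
lemma intOn_orb (r : ℝ) (ξ : H) :
    IntegrableOn (fun x => ‖T.τ x ξ‖ ^ 2) (Metric.closedBall (0 : V3) r) volume :=
  ((T.cont ξ).norm.pow 2).continuousOn.integrableOn_compact (isCompact_closedBall _ _)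

omit [CompleteSpace H] in
lemma norm_orb_le {r om : ℝ} (hr : 0 ≤ r) (h : ∀ x, ‖x‖ ≤ r → ‖T.τ x‖ ≤ om) (ξ : H) :
    ‖(T.memLp_orb r ξ).toLp _‖ ^ 2 ≤ (2 * r) ^ 3 * (om * ‖ξ‖) ^ 2 := by
  rw [norm_orb_sq, ← vol_ball hr, ← smul_eq_mul, ← setIntegral_const]
  refine setIntegral_mono_on (T.intOn_orb r ξ)
    (integrableOn_const measure_closedBall_lt_top.ne) measurableSet_closedBall fun x hx => ?_
  gcongr
  exact (T.τ x).le_of_opNorm_le (h x (mem_closedBall_zero_iff.mp hx)) ξ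

omit [CompleteSpace H] in
lemma le_norm_orb {r om : ℝ} (hr : 0 ≤ r) (h : ∀ x, ‖x‖ ≤ r → ‖T.τ x‖ ≤ om) (ξ : H) :
    (2 * r) ^ 3 * ‖ξ‖ ^ 2 ≤ om ^ 2 * ‖(T.memLp_orb r ξ).toLp _‖ ^ 2 := by
  rw [norm_orb_sq, ← vol_ball hr, ← smul_eq_mul, ← setIntegral_const, ← integral_const_mul]
  refine setIntegral_mono_on (integrableOn_const measure_closedBall_lt_top.ne)
    ((T.intOn_orb r ξ).const_mul _) measurableSet_closedBall fun x hx => ?_
  have e : T.τ (-x) (T.τ x ξ) = ξ := by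
    rw [← mul_apply_eq_comp, ← T.add, neg_add_cancel, T.zero, one_apply_eq_self]
  have := (T.τ (-x)).le_of_opNorm_le (h (-x) (by
    rw [norm_neg]; exact mem_closedBall_zero_iff.mp hx)) (T.τ x ξ)
  rw [e] at this
  rw [← mul_pow]
  gcongr

/-- The orbit map, cut off to a ball. -/
noncomputable def J (r : ℝ) : H →L[ℝ] Lp H 2 (volume : Measure V3) :=
  LinearMap.mkContinuousOfExistsBound
    { toFun := fun ξ => (T.memLp_orb r ξ).toLp _
      map_add' := fun a b => by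
        rw [← MemLp.toLp_add]
        refine MemLp.toLp_congr _ _ (Filter.Eventually.of_forall fun x => ?_)
        by_cases h : x ∈ Metric.closedBall (0 : V3) r <;> simp [h]
      map_smul' := fun c a => by
        rw [RingHom.id_apply, ← MemLp.toLp_const_smul]
        refine MemLp.toLp_congr _ _ (Filter.Eventually.of_forall fun x => ?_)
        by_cases h : x ∈ Metric.closedBall (0 : V3) r <;> simp [h] }
    (by
      obtain ⟨C, hC⟩ := T.exists_bound (isCompact_closedBall (0 : V3) r)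
      refine ⟨√(volume.real (Metric.closedBall (0 : V3) r)) * |C|, fun ξ => ?_⟩
      refine le_of_pow_le_pow_left₀ two_ne_zero (by positivity) ?_
      change ‖(T.memLp_orb r ξ).toLp _‖ ^ 2 ≤ _
      rw [norm_orb_sq, mul_assoc, mul_pow, Real.sq_sqrt measureReal_nonneg, ← smul_eq_mul,
        ← setIntegral_const]
      refine setIntegral_mono_on (T.intOn_orb r ξ)
        (integrableOn_const measure_closedBall_lt_top.ne) measurableSet_closedBall fun x hx => ?_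
      gcongr
      exact (T.τ x).le_of_opNorm_le ((hC x hx).trans (le_abs_self C)) ξ)

lemma J_apply (r : ℝ) (ξ : H) : T.J r ξ = (T.memLp_orb r ξ).toLp _ := rfl

lemma inner_tr_J {r : ℝ} {w : V3} (hw : ‖w‖ ≤ r) (ξ η : H) :
    ⟪T.J r η, (tr H).τ w (T.J (2 * r) ξ)⟫ = ⟪T.J r η, T.J r (T.τ w ξ)⟫ := by
  rw [L2.inner_def, L2.inner_def]
  refine integral_congr_ae ?_
  have h1 := (measurePreserving_add_right volume w).quasiMeasurePreserving.ae_eq_comp
    (T.memLp_orb (2 * r) ξ).coeFn_toLp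
  filter_upwards [(T.memLp_orb r η).coeFn_toLp, (T.memLp_orb r (T.τ w ξ)).coeFn_toLp,
    tr_coe w (T.J (2 * r) ξ), h1] with x e1 e2 e3 e4
  rw [e3, J_apply, J_apply, J_apply, e1, e2]
  rw [Function.comp_apply, Function.comp_apply] at e4
  rw [e4]
  by_cases h : x ∈ Metric.closedBall (0 : V3) r
  · have h2 : x + w ∈ Metric.closedBall (0 : V3) (2 * r) := by
      rw [mem_closedBall_zero_iff] at h ⊢
      linarith [norm_add_le x w]
    rw [indicator_of_mem h, indicator_of_mem h, indicator_of_mem h2, T.add, mul_apply_eq_comp]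
  · rw [indicator_of_notMem h, inner_zero_left, inner_zero_left]

lemma inner_M_J {r p : ℝ} (hp : 0 < p) {v u : V3} (h : p * ‖v‖ + ‖u‖ ≤ r) (ξ η : H) :
    ⟪T.J r η, (tr H).M v u p (T.J (2 * r) ξ)⟫ = ⟪T.J r η, T.J r (T.M v u p ξ)⟫ := by
  have e1 := (tr H).map_av (innerSL ℝ (T.J r η)) v p (((tr H).τ u - 1) (T.J (2 * r) ξ))
  have e2 := T.map_av ((innerSL ℝ (T.J r η)).comp (T.J r)) v p ((T.τ u - 1) ξ)
  refine e1.trans (Eq.trans ?_ e2.symm)
  congr 1
  refine intervalIntegral.integral_congr fun t ht => ?_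
  rw [uIcc_of_le hp.le] at ht
  have ht1 : ‖t • v‖ ≤ p * ‖v‖ := by
    rw [norm_smul, Real.norm_eq_abs, abs_of_nonneg ht.1]; gcongr; exact ht.2
  simp only [sub_apply, one_apply_eq_self, map_sub, innerSL_apply_apply,
    ContinuousLinearMap.comp_apply]
  rw [← mul_apply_eq_comp, ← (tr H).add, ← mul_apply_eq_comp (T.τ _), ← T.add,
    T.inner_tr_J ((norm_add_le _ _).trans (by linarith)),
    T.inner_tr_J (by linarith [norm_nonneg u])]

theorem bessel {N : ℕ} (hN : 0 < N) (v u : Fin N → V3) {p ρ κ r om : ℝ} (hp : 0 < p) (hρ : 0 ≤ ρ)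
    (hκ0 : 0 ≤ κ) (hr : 0 < r) (hom : ∀ x, ‖x‖ ≤ 2 * r → ‖T.τ x‖ ≤ om)
    (hv : ∀ i, p * ‖v i‖ + ‖u i‖ ≤ r)
    (hrel : ∀ i j k, i ≠ j → j ≠ k → i ≠ k → ∃ c1 c2 c3 : ℝ, |c1| ≤ ρ ∧ |c2| ≤ ρ ∧ |c3| ≤ ρ ∧
      u i = c1 • v i + c2 • v j + c3 • v k)
    (hκ : 192 * (ρ / p + 1 / N) ≤ κ ^ 6) (ξ : H) :
    ∃ i, ‖T.M (v i) (u i) p ξ‖ ≤ 3 * om ^ 2 * κ * ‖ξ‖ := by
  obtain ⟨i, hi⟩ := (tr H).bessel_unitary tr_norm hN v u hp hρ (sq_nonneg κ) hrel
    (by rwa [← pow_mul]) (T.J (2 * r) ξ)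
  refine ⟨i, ?_⟩
  set η := T.M (v i) (u i) p ξ
  have h0 : 0 ≤ om := (norm_nonneg _).trans (hom 0 (by rw [norm_zero]; positivity))
  have h1 : ‖T.J r η‖ ≤ ‖(tr H).M (v i) (u i) p (T.J (2 * r) ξ)‖ := by
    have := real_inner_le_norm (T.J r η) ((tr H).M (v i) (u i) p (T.J (2 * r) ξ))
    rw [T.inner_M_J hp (hv i), real_inner_self_eq_norm_mul_norm] at this
    rcases (norm_nonneg (T.J r η)).eq_or_lt with h | h
    · rw [← h]; exact norm_nonneg _
    · exact le_of_mul_le_mul_left this h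
  have h2 := T.le_norm_orb hr.le (fun x hx => hom x (by linarith)) η
  have h3 := T.norm_orb_le (r := 2 * r) (by positivity) hom ξ
  rw [← J_apply] at h2 h3
  refine le_of_pow_le_pow_left₀ two_ne_zero (by positivity) ?_
  refine le_of_mul_le_mul_left ?_ (show 0 < (2 * r) ^ 3 by positivity)
  calc _ ≤ om ^ 2 * ‖T.J r η‖ ^ 2 := h2
    _ ≤ om ^ 2 * ‖(tr H).M (v i) (u i) p (T.J (2 * r) ξ)‖ ^ 2 := by gcongr
    _ ≤ om ^ 2 * (κ ^ 2 * ((2 * (2 * r)) ^ 3 * (om * ‖ξ‖) ^ 2)) := by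
        gcongr; exact hi.trans (by gcongr)
    _ = (2 * r) ^ 3 * (8 * (om ^ 2 * κ * ‖ξ‖) ^ 2) := by ring
    _ ≤ (2 * r) ^ 3 * (9 * (om ^ 2 * κ * ‖ξ‖) ^ 2) := by gcongr; norm_num
    _ = _ := by ring

end Transfer

end Rep

end Pool.Agent.P.MP_d483fb_an.Z.ST
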