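import Pool.Agent.P.MP_d483fb_an.Z.ST.Bessel

/-! The two moves and their combination, with explicit constants. -/

namespace Pool.Agent.P.MP_d483fb_an.Z.ST

open Set

variable {H : Type*} [NormedAddCommGroup H] [InnerProductSpace ℝ H] [CompleteSpace H]

lemma gap {N : ℕ} {i j : Fin N} (h : i ≠ j) :
    1 ≤ |((i : ℕ) : ℝ) - (j : ℕ)| ∧ |((i : ℕ) : ℝ) - (j : ℕ)| ≤ N := by
  have hi : ((i : ℕ) : ℝ) ≤ N := by exact_mod_cast i.2.le
  have hj : ((j : ℕ) : ℝ) ≤ N := by exact_mod_cast j.2.le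
  have hi0 : (0 : ℝ) ≤ (i : ℕ) := Nat.cast_nonneg _
  have hj0 : (0 : ℝ) ≤ (j : ℕ) := Nat.cast_nonneg _
  refine ⟨?_, abs_le.mpr ⟨by linarith, by linarith⟩⟩
  rcases lt_or_gt_of_ne (Fin.val_ne_of_ne h) with h | h
  · have : ((i : ℕ) : ℝ) + 1 ≤ (j : ℕ) := by exact_mod_cast h
    rw [le_abs]; right; linarith
  · have : ((j : ℕ) : ℝ) + 1 ≤ (i : ℕ) := by exact_mod_cast h
    rw [le_abs]; left; linarith

lemma norm_vec_le {a b c r : ℝ} (ha : |a| ≤ r) (hb : |b| ≤ r) (hc : |c| ≤ r) :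
    ‖(![a, b, c] : V3)‖ ≤ r := by
  refine (pi_norm_le_iff_of_nonneg ((abs_nonneg a).trans ha)).mpr fun i => ?_
  fin_cases i <;> assumption

lemma smul_vec (t a b c : ℝ) : t • (![a, b, c] : V3) = ![t * a, t * b, t * c] := by
  ext i; fin_cases i <;> rfl

lemma sh_smul (s t : ℝ) (v : V3) : sh s (t • v) = t • sh s v := by
  ext i; fin_cases i <;> simp [sh] <;> ring

lemma ceil_bounds {q : ℝ} (hq : 2 ≤ q) : 0 < ⌈q⌉₊ ∧ q ≤ (⌈q⌉₊ : ℝ) ∧ (⌈q⌉₊ : ℝ) ≤ 2 * q :=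
  ⟨Nat.ceil_pos.mpr (by linarith), Nat.le_ceil q,
    by linarith [Nat.ceil_lt_add_one (show 0 ≤ q by linarith)]⟩

lemma lagrange {a x y z B n : ℝ} (ha : |a| ≤ B) (hn : 2 ≤ n) (hxy : 1 ≤ |x - y|)
    (hyz : 1 ≤ |y - z|) (hxz : 1 ≤ |x - z|) (hxy' : |x - y| ≤ n) (hxz' : |x - z| ≤ n) :
    ∃ c1 c2 c3 : ℝ, |c1| ≤ B * n ∧ |c2| ≤ B * n ∧ |c3| ≤ B * n ∧ c1 + c2 + c3 = 0 ∧
      c1 * x + c2 * y + c3 * z = a ∧ c1 * x ^ 2 + c2 * y ^ 2 + c3 * z ^ 2 = 2 * a * x := by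
  have h0 : 0 ≤ B := (abs_nonneg a).trans ha
  have n1 : x - y ≠ 0 := fun h => by rw [h, abs_zero] at hxy; linarith
  have n2 : y - z ≠ 0 := fun h => by rw [h, abs_zero] at hyz; linarith
  have n3 : x - z ≠ 0 := fun h => by rw [h, abs_zero] at hxz; linarith
  have i1 : |(x - y)⁻¹| ≤ 1 := by rw [abs_inv]; exact inv_le_one_of_one_le₀ hxy
  have i2 : |(y - z)⁻¹| ≤ 1 := by rw [abs_inv]; exact inv_le_one_of_one_le₀ hyz
  have i3 : |(x - z)⁻¹| ≤ 1 := by rw [abs_inv]; exact inv_le_one_of_one_le₀ hxz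
  refine ⟨a * ((x - y)⁻¹ + (x - z)⁻¹), -(a * ((x - z) * ((x - y)⁻¹ * (y - z)⁻¹))),
    a * ((x - y) * ((x - z)⁻¹ * (y - z)⁻¹)), ?_, ?_, ?_, ?_, ?_, ?_⟩
  · rw [abs_mul]
    have := abs_add_le (x - y)⁻¹ (x - z)⁻¹
    gcongr
    linarith
  · rw [abs_neg, abs_mul, abs_mul, abs_mul]
    calc _ ≤ B * (n * (1 * 1)) := by gcongr
      _ = _ := by ring
  · rw [abs_mul, abs_mul, abs_mul]
    calc _ ≤ B * (n * (1 * 1)) := by gcongr
      _ = _ := by ring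
  · field_simp; ring
  · field_simp; ring
  · field_simp; ring

theorem move1 (T : Rep V3 H) (W W' : ℝ → H →L[ℝ] H) (hWW : ∀ s, W' s * W s = 1)
    (hc : ∀ s v, W s * T.τ v = T.τ (sh s v) * W s) {q a om B δ κ : ℝ} (hq : 2 ≤ q)
    (ha : |a| ≤ q ^ 12) (hom : ∀ x, ‖x‖ ≤ q ^ 26 → ‖T.τ x‖ ≤ om)
    (hB : ∀ s, |s| ≤ 2 / q → ‖W' s‖ ≤ B) (hκ0 : 0 ≤ κ) (hκ : 576 / q ≤ κ ^ 6) {ξ : H}
    (hδ : ∀ s, |s| ≤ 2 / q → ‖W s ξ - ξ‖ ≤ δ) :
    ‖T.M ![1, 0, 0] ![0, a, 0] (q ^ 16) ξ‖ ≤ B * (3 * om ^ 2 * κ * ‖ξ‖ + om * (om + 1) * δ) := by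
  obtain ⟨hN, hN1, hN2⟩ := ceil_bounds hq
  set N := ⌈q⌉₊
  have hq0 : 0 < q := by linarith
  have hq1 : 1 ≤ q := by linarith
  set s : Fin N → ℝ := fun i => ((i : ℕ) : ℝ) / q ^ 2 with hs
  have hs1 : ∀ i, |s i| ≤ 2 / q := fun i => by
    have hi : ((i : ℕ) : ℝ) ≤ N := by exact_mod_cast i.2.le
    rw [hs, abs_of_nonneg (by positivity), div_le_div_iff₀ (by positivity) hq0]
    nlinarith
  have hs2 : ∀ i, |s i| ≤ 1 := fun i => (hs1 i).trans (by rw [div_le_one hq0]; exact hq)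
  have hv : ∀ i, ‖(![1, s i, s i ^ 2 / 2] : V3)‖ ≤ 1 := fun i =>
    norm_vec_le (by simp) (hs2 i) (by
      rw [abs_of_nonneg (by positivity), ← sq_abs]; nlinarith [hs2 i, abs_nonneg (s i)])
  have hu : ∀ i, ‖(![0, a, s i * a] : V3)‖ ≤ q ^ 12 := fun i =>
    norm_vec_le (by simp; positivity) ha (by
      rw [abs_mul]; nlinarith [hs2 i, abs_nonneg (s i), abs_nonneg a])
  have p1 : q ^ 12 ≤ q ^ 16 := pow_le_pow_right₀ hq1 (by norm_num)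
  have p2 : 4 * q ^ 16 ≤ q ^ 26 := by
    have : 2 ^ 10 ≤ q ^ 10 := by gcongr
    calc _ ≤ q ^ 10 * q ^ 16 := by gcongr; linarith
      _ = _ := by ring
  have p0 : 0 < q ^ 16 := by positivity
  obtain ⟨i, hi⟩ := T.bessel hN (fun i => ![1, s i, s i ^ 2 / 2]) (fun i => ![0, a, s i * a])
    (p := q ^ 16) (ρ := q ^ 14 * N) (κ := κ) (r := 2 * q ^ 16) (om := om) p0 (by positivity) hκ0
    (by positivity) (fun x hx => hom x (by linarith))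
    (fun i => by nlinarith [hv i, hu i]) (fun i j k hij hjk hik => by
      obtain ⟨c1, c2, c3, b1, b2, b3, e1, e2, e3⟩ := lagrange (a := a * q ^ 2) (B := q ^ 14)
        (by rw [abs_mul, abs_of_pos (show 0 < q ^ 2 by positivity)]
            calc _ ≤ q ^ 12 * q ^ 2 := by gcongr
              _ = _ := by ring)
        (hq.trans hN1) (gap hij).1 (gap hjk).1 (gap hik).1 (gap hij).2 (gap hik).2
      refine ⟨c1, c2, c3, b1, b2, b3, ?_⟩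
      ext l
      fin_cases l
      · simp; linarith
      · simp [hs]; field_simp; linarith
      · simp [hs]; field_simp; linarith)
    (le_trans (by
      have h1 : q ^ 14 * N / q ^ 16 ≤ 2 / q := by
        rw [div_le_div_iff₀ p0 hq0]
        calc _ ≤ q ^ 14 * (2 * q) * q := by gcongr
          _ = _ := by ring
      have h2 : 1 / (N : ℝ) ≤ 1 / q := by gcongr
      calc _ ≤ 192 * (2 / q + 1 / q) := by gcongr
        _ = _ := by ring) hκ) ξ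
  have e0 : sh (s i) ![1, 0, 0] = ![1, s i, s i ^ 2 / 2] := by simp [sh]
  have e1 : sh (s i) ![0, a, 0] = ![0, a, s i * a] := by simp [sh]
  have c1 : W (s i) * T.av ![1, 0, 0] (q ^ 16) = T.av ![1, s i, s i ^ 2 / 2] (q ^ 16) * W (s i) :=
    T.av_conj T (fun t => by rw [hc, sh_smul, e0]) _
  have c2 : W (s i) * T.M ![1, 0, 0] ![0, a, 0] (q ^ 16) =
      T.M ![1, s i, s i ^ 2 / 2] ![0, a, s i * a] (q ^ 16) * W (s i) := by
    rw [Rep.M, Rep.M, ← mul_assoc, c1, mul_assoc, mul_assoc, mul_sub, sub_mul, hc, e1, mul_one,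
      one_mul]
  have hM : ‖T.M ![1, s i, s i ^ 2 / 2] ![0, a, s i * a] (q ^ 16)‖ ≤ om * (om + 1) := by
    refine Rep.norm_mul_le_of (T.norm_av_le p0 fun t ht => hom _ ?_) ?_
    · rw [norm_smul, Real.norm_eq_abs, abs_of_nonneg ht.1]
      nlinarith [hv i, ht.1, ht.2, norm_nonneg (![1, s i, s i ^ 2 / 2] : V3)]
    · exact (norm_sub_le _ _).trans (add_le_add (hom _ (by linarith [hu i]))
        ContinuousLinearMap.norm_id_le)
  set M' := T.M ![1, s i, s i ^ 2 / 2] ![0, a, s i * a] (q ^ 16)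
  have e : T.M ![1, 0, 0] ![0, a, 0] (q ^ 16) ξ = W' (s i) (M' ξ + M' (W (s i) ξ - ξ)) := by
    rw [← map_add, add_sub_cancel, ← mul_apply_eq_comp M', ← c2, ← mul_apply_eq_comp,
      ← mul_assoc, hWW, one_mul]
  rw [e]
  refine ((W' (s i)).le_of_opNorm_le (hB _ (hs1 i)) _).trans ?_
  have hB0 : 0 ≤ B := (norm_nonneg _).trans (hB _ (hs1 i))
  have h0 : 0 ≤ om * (om + 1) := (norm_nonneg _).trans hM
  gcongr
  refine (norm_add_le _ _).trans (add_le_add hi ((M'.le_of_opNorm_le hM _).trans ?_))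
  gcongr
  exact hδ _ (hs1 i)

theorem move2 (T : Rep V3 H) (X : ℝ → H →L[ℝ] H)
    (hX : ∀ s t r : ℝ, T.τ ![t, r, 0] * X s = X s * T.τ ![t - s * r, r, 0])
    {q c om κ : ℝ} (hq : 2 ≤ q) (hc : |c| ≤ q ^ 17) (hom : ∀ x, ‖x‖ ≤ q ^ 26 → ‖T.τ x‖ ≤ om)
    (hκ0 : 0 ≤ κ) (hκ : 576 / q ≤ κ ^ 6) (ξ : H) :
    ∃ s, |s| ≤ q ^ 12 ∧ ‖T.M ![0, 1, 0] ![c, 0, 0] (q ^ 12) (X s ξ)‖ ≤
      ‖X s‖ * (3 * om ^ 2 * κ * ‖ξ‖) := by
  obtain ⟨hN, hN1, hN2⟩ := ceil_bounds hq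
  set N := ⌈q⌉₊
  have hq0 : 0 < q := by linarith
  have hq1 : 1 ≤ q := by linarith
  set s : Fin N → ℝ := fun i => ((i : ℕ) : ℝ) * q ^ 10 with hs
  have hs1 : ∀ i, |s i| ≤ q ^ 12 := fun i => by
    have hi : ((i : ℕ) : ℝ) ≤ N := by exact_mod_cast i.2.le
    rw [hs, abs_of_nonneg (by positivity)]
    calc ((i : ℕ) : ℝ) * q ^ 10 ≤ q * q * q ^ 10 := by gcongr; nlinarith
      _ = _ := by ring
  have p0 : 0 < q ^ 12 := by positivity
  have p1 : 1 ≤ q ^ 12 := one_le_pow₀ hq1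
  have hv : ∀ i, ‖(![-s i, 1, 0] : V3)‖ ≤ q ^ 12 := fun i =>
    norm_vec_le (by rw [abs_neg]; exact hs1 i) (by simpa using p1) (by simpa using p0.le)
  have hu : ‖(![c, 0, 0] : V3)‖ ≤ q ^ 17 :=
    norm_vec_le hc (by simp; positivity) (by simp; positivity)
  have p2 : q ^ 17 ≤ q ^ 24 := pow_le_pow_right₀ hq1 (by norm_num)
  have p3 : 4 * q ^ 24 ≤ q ^ 26 := by
    calc _ ≤ q * q * q ^ 24 := by gcongr; nlinarith
      _ = _ := by ring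
  obtain ⟨i, hi⟩ := T.bessel hN (fun i => ![-s i, 1, 0]) (fun _ => ![c, 0, 0])
    (p := q ^ 12) (ρ := q ^ 7) (κ := κ) (r := 2 * q ^ 24) (om := om) p0 (by positivity) hκ0
    (by positivity) (fun x hx => hom x (by linarith))
    (fun i => by
      have : q ^ 12 * ‖(![-s i, 1, 0] : V3)‖ ≤ q ^ 12 * q ^ 12 := by gcongr; exact hv i
      have e : q ^ 12 * q ^ 12 = q ^ 24 := by ring
      linarith) (fun i j k hij _ _ => by
      have g := (gap hij).1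
      have n1 : ((i : ℕ) : ℝ) - (j : ℕ) ≠ 0 := fun h => by rw [h, abs_zero] at g; linarith
      have b : |c / ((((i : ℕ) : ℝ) - (j : ℕ)) * q ^ 10)| ≤ q ^ 7 := by
        rw [abs_div, abs_mul, abs_of_pos (show 0 < q ^ 10 by positivity),
          div_le_iff₀ (by positivity)]
        calc _ ≤ q ^ 17 := hc
          _ = q ^ 7 * (1 * q ^ 10) := by ring
          _ ≤ _ := by gcongr
      refine ⟨-(c / ((((i : ℕ) : ℝ) - (j : ℕ)) * q ^ 10)), c / ((((i : ℕ) : ℝ) - (j : ℕ)) * q ^ 10),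
        0, by rwa [abs_neg], b, by simp; positivity, ?_⟩
      ext l
      fin_cases l
      · simp [hs]; field_simp; ring
      · simp
      · simp)
    (le_trans (by
      have h1 : q ^ 7 / q ^ 12 ≤ 2 / q := by
        rw [div_le_div_iff₀ p0 hq0]
        have : q ^ 8 ≤ q ^ 12 := pow_le_pow_right₀ hq1 (by norm_num)
        calc _ = q ^ 8 := by ring
          _ ≤ _ := by linarith
      have h2 : 1 / (N : ℝ) ≤ 1 / q := by gcongr
      calc _ ≤ 192 * (2 / q + 1 / q) := by gcongr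
        _ = _ := by ring) hκ) ξ
  refine ⟨s i, hs1 i, ?_⟩
  have c1 : X (s i) * T.av ![-s i, 1, 0] (q ^ 12) = T.av ![0, 1, 0] (q ^ 12) * X (s i) :=
    T.av_conj T (fun t => by
      rw [smul_vec, smul_vec, mul_zero, mul_one, hX]
      congr 3
      ring) _
  have c2 : T.M ![0, 1, 0] ![c, 0, 0] (q ^ 12) * X (s i) =
      X (s i) * T.M ![-s i, 1, 0] ![c, 0, 0] (q ^ 12) := by
    rw [Rep.M, Rep.M, ← mul_assoc, c1, mul_assoc, mul_assoc, mul_sub, sub_mul, hX, mul_zero,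
      sub_zero, mul_one, one_mul]
  rw [← mul_apply_eq_comp, c2, mul_apply_eq_comp]
  exact ((X (s i)).le_opNorm _).trans (by gcongr)

theorem moves (T1 T2 : Rep V3 H) (same : ∀ t : ℝ, T1.τ ![t, 0, 0] = T2.τ ![t, 0, 0])
    (hX : ∀ s t r : ℝ, T2.τ ![t, r, 0] * T1.τ ![0, s, 0] =
      T1.τ ![0, s, 0] * T2.τ ![t - s * r, r, 0])
    {q c om κ δ : ℝ} (hq : 2 ≤ q) (hc : |c| ≤ q ^ 17)
    (hom1 : ∀ x, ‖x‖ ≤ q ^ 26 → ‖T1.τ x‖ ≤ om) (hom2 : ∀ x, ‖x‖ ≤ q ^ 26 → ‖T2.τ x‖ ≤ om)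
    (hκ0 : 0 ≤ κ) (hκ : 576 / q ≤ κ ^ 6) {ξ : H}
    (h1 : ∀ a, |a| ≤ q ^ 12 → ‖T1.M ![1, 0, 0] ![0, a, 0] (q ^ 16) ξ‖ ≤ δ)
    (h2 : ∀ a, |a| ≤ q ^ 12 → ‖T2.M ![1, 0, 0] ![0, a, 0] (q ^ 16) ξ‖ ≤ δ) :
    ‖T1.τ ![c, 0, 0] (T1.av ![1, 0, 0] (q ^ 16) ξ) - T1.av ![1, 0, 0] (q ^ 16) ξ‖ ≤
      (om + 1) * ((om + 1) * δ) + om * (om * (3 * om ^ 2 * κ * ‖ξ‖)) := by
  have hq0 : 0 < q := by linarith
  have hq1 : 1 ≤ q := by linarith
  obtain ⟨s, hs, hs'⟩ := move2 T2 (fun s => T1.τ ![0, s, 0]) hX hq hc hom2 hκ0 hκ ξ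
  have eA : T1.av ![1, 0, 0] (q ^ 16) = T2.av ![1, 0, 0] (q ^ 16) := by
    have := T1.av_conj T2 (S := 1) (S' := 1) (v := ![1, 0, 0]) (v' := ![1, 0, 0])
      (fun t => by rw [smul_vec, mul_zero, mul_one, mul_one, one_mul, same]) (q ^ 16)
    rwa [one_mul, mul_one] at this
  have p12 : q ^ 12 ≤ q ^ 26 := pow_le_pow_right₀ hq1 (by norm_num)
  have p16 : q ^ 16 ≤ q ^ 26 := pow_le_pow_right₀ hq1 (by norm_num)
  have p17 : q ^ 17 ≤ q ^ 26 := pow_le_pow_right₀ hq1 (by norm_num)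
  have z26 : |(0 : ℝ)| ≤ q ^ 26 := by simp; positivity
  have om0 : 0 ≤ om := (norm_nonneg _).trans (hom1 0 (by simpa using z26))
  simp only [Rep.M, eA] at h1 h2
  rw [eA, same]
  have kY : ∀ u, Commute (T2.τ u) (T2.av ![1, 0, 0] (q ^ 16)) := fun u => T2.commute_τ_av u _ _
  have kYA := T2.commute_av_av ![0, 1, 0] ![1, 0, 0] (q ^ 12) (q ^ 16)
  have kn := T2.commute_τ_av ![c, 0, 0] ![0, 1, 0] (q ^ 12)
  have hA : ‖T2.av ![1, 0, 0] (q ^ 16)‖ ≤ om := T2.norm_av_le (by positivity) fun t ht => hom2 _ (by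
    rw [smul_vec, mul_zero, mul_one]
    exact norm_vec_le (by rw [abs_of_nonneg ht.1]; linarith [ht.2]) z26 z26)
  have hY : ‖T2.av ![0, 1, 0] (q ^ 12)‖ ≤ om := T2.norm_av_le (by positivity) fun t ht => hom2 _ (by
    rw [smul_vec, mul_zero, mul_one]
    exact norm_vec_le z26 (by rw [abs_of_nonneg ht.1]; linarith [ht.2]) z26)
  have hXs : ‖T1.τ ![0, s, 0]‖ ≤ om := hom1 _ (norm_vec_le z26 (hs.trans p12) z26)
  have hn : ‖T2.τ ![c, 0, 0] - 1‖ ≤ om + 1 := (norm_sub_le _ _).trans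
    (add_le_add (hom2 _ (norm_vec_le (hc.trans p17) z26 z26)) ContinuousLinearMap.norm_id_le)
  have b1 : ‖T2.av ![0, 1, 0] (q ^ 12) (T2.av ![1, 0, 0] (q ^ 16) ξ) -
      T2.av ![1, 0, 0] (q ^ 16) ξ‖ ≤ δ := by
    refine T2.norm_av_sub_le (by positivity) fun t ht => ?_
    have := h2 t (by rw [abs_of_nonneg ht.1]; exact ht.2)
    rw [mul_sub, ← (kY _).eq, mul_one, sub_apply, mul_apply_eq_comp] at this
    rwa [smul_vec, mul_zero, mul_one]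
  have b2 := h1 s hs
  have δ0 : 0 ≤ δ := (norm_nonneg _).trans b2
  rw [Rep.M] at hs'
  have kn' : Commute (T2.τ ![c, 0, 0] - 1) (T2.av ![0, 1, 0] (q ^ 12)) :=
    kn.sub_left (Commute.one_left _)
  have kn'' : Commute (T2.τ ![c, 0, 0] - 1) (T2.av ![1, 0, 0] (q ^ 16)) :=
    (kY _).sub_left (Commute.one_left _)
  have e0 : T2.τ ![c, 0, 0] (T2.av ![1, 0, 0] (q ^ 16) ξ) - T2.av ![1, 0, 0] (q ^ 16) ξ =
      (T2.τ ![c, 0, 0] - 1) (T2.av ![1, 0, 0] (q ^ 16) ξ) := rfl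
  rw [e0]
  generalize T2.τ ![c, 0, 0] - 1 = n at *
  generalize T2.av ![1, 0, 0] (q ^ 16) = A at *
  generalize T2.av ![0, 1, 0] (q ^ 12) = Y at *
  generalize T1.τ ![0, s, 0] = X at *
  have e1 : A * (Y * n) = n * (Y * A) := by
    rw [← kn'.eq, ← mul_assoc, ← kn''.eq, mul_assoc, kYA.eq]
  have e : n (A ξ) = A ((Y * n) (X ξ)) - n ((Y (A ξ) - A ξ) + Y ((A * (X - 1)) ξ)) := by
    rw [← mul_apply_eq_comp A, e1]
    simp only [mul_apply_eq_comp, sub_apply, one_apply_eq_self, map_sub, map_add]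
    abel
  rw [e, add_comm ((om + 1) * ((om + 1) * δ))]
  refine (norm_sub_le _ _).trans (add_le_add ?_ ?_)
  · refine (A.le_of_opNorm_le hA _).trans ?_
    gcongr
    exact hs'.trans (by gcongr)
  · refine (n.le_of_opNorm_le hn _).trans ?_
    gcongr
    refine (norm_add_le _ _).trans ?_
    have := (Y.le_of_opNorm_le hY ((A * (X - 1)) ξ)).trans (mul_le_mul_of_nonneg_left b2 om0)
    linarith

end Pool.Agent.P.MP_d483fb_an.Z.ST
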